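import Mathlib

/-!
# Radical inequalities with one cusp: definitions
-/

namespace Pool.Agent.N757.OC

/-- the radical: the product of the primes dividing `n` -/
def R (n : ℕ) : ℕ := ∏ p ∈ n.primeFactors, p

/-- the abc conjecture: for every `ε > 0` there is `κ` with `c ≤ κ R (a b c) ^ (1 + ε)` for all coprime
positive integers `a + b = c` -/
def ABC : Prop :=
  ∀ ε : ℝ, 0 < ε → ∃ κ : ℝ, ∀ a b c : ℕ, 0 < a → 0 < b → Nat.Coprime a b → a + b = c →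
    (c : ℝ) ≤ κ * (R (a * b * c) : ℝ) ^ (1 + ε)

/-- the inequality `R (x ^ p - y ^ q) ≥ κ M ^ (1 - 1/p - 1/q - ε)`, where `M = max (|x| ^ p, |y| ^ q)`,
for all coprime integers `x`, `y` with `x ^ p ≠ y ^ q`, `N ∣ x ^ p - y ^ q` and
`|x ^ p - y ^ q| ≤ δ M` -/
def OneCusp (p q N : ℕ) (δ : ℝ) : Prop :=
  ∀ ε : ℝ, 0 < ε → ∃ κ : ℝ, 0 < κ ∧ ∀ x y : ℤ, IsCoprime x y → x ^ p ≠ y ^ q →
    (N : ℤ) ∣ x ^ p - y ^ q →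
    |(x : ℝ) ^ p - (y : ℝ) ^ q| ≤ δ * max (|(x : ℝ)| ^ p) (|(y : ℝ)| ^ q) →
    κ * (max (|(x : ℝ)| ^ p) (|(y : ℝ)| ^ q)) ^ (1 - 1 / (p : ℝ) - 1 / (q : ℝ) - ε) ≤
      R (x ^ p - y ^ q).natAbs

/-- the inequality `R (u v) ≥ κ M ^ (1 - 1/n - ε)`, where `M = max (|u|, |v|)`, for all coprime nonzero
integers `u`, `v` whose sum is an `n`-th power, with `N ∣ u` and `|u| ≤ δ |v|` -/
def TwoCusps (n N : ℕ) (δ : ℝ) : Prop :=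
  ∀ ε : ℝ, 0 < ε → ∃ κ : ℝ, 0 < κ ∧ ∀ u v x : ℤ, IsCoprime u v → u ≠ 0 → v ≠ 0 → u + v = x ^ n →
    (N : ℤ) ∣ u → |(u : ℝ)| ≤ δ * |(v : ℝ)| →
    κ * (max |(u : ℝ)| |(v : ℝ)|) ^ (1 - 1 / (n : ℝ) - ε) ≤ R (u * v).natAbs

end Pool.Agent.N757.OC
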