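import Mathlib
import Pool.Agent.N757.OC.Defs
import Pool.Agent.N746.Self.Lift

/-!
# Radical inequalities with one cusp: reduction to triples near a cusp, and the bridge
-/

namespace Pool.Agent.N757.OC

open Filter Topology

theorem R_eq : R = Pool.Agent.N746.Self.R := rfl

theorem R_pos (n : ℕ) : 0 < R n := Pool.Agent.N746.Self.R_pos n

theorem R_le_of_primes {m n : ℕ} (hn : n ≠ 0) (h : ∀ p : ℕ, p.Prime → p ∣ m → p ∣ n) :
    R m ≤ R n := Pool.Agent.N746.Self.R_le_of_primes hn h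

theorem R_bound {m n w : ℕ} (hn : n ≠ 0) (hw : w ≠ 0) (h : ∀ p : ℕ, p.Prime → p ∣ m → p ∣ n * w) :
    R m ≤ R n * w := by
  calc R m ≤ R (n * w) := R_le_of_primes (mul_ne_zero hn hw) h
    _ ≤ R n * R w := Pool.Agent.N746.Self.R_mul_le n w hn hw
    _ ≤ R n * w := Nat.mul_le_mul_left _ (Pool.Agent.N746.Self.R_le (Nat.pos_of_ne_zero hw))

theorem near (N : ℕ) (δ : ℝ) (hN : 1 ≤ N) (hδ : 0 < δ)
    (h : Pool.Agent.N746.Self.ABC fun a _ c => N ∣ a ∧ (a : ℝ) ≤ δ * c) : ABC := by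
  have hY : Tendsto (fun i : ℕ => (2 : ℝ) ^ ((2 : ℕ) ^ i)) atTop atTop :=
    (tendsto_pow_atTop_atTop_of_one_lt (by norm_num)).comp
      (tendsto_pow_atTop_atTop_of_one_lt (by norm_num : (1 : ℕ) < 2))
  have h1 := Pool.Agent.N746.Self.lift (fun _ _ _ => True) 1 1 le_rfl le_rfl 1 1 one_pos le_rfl (by
    intro X Y Z h1 hY hZ hXY _ _
    refine ⟨Z, Y, X, hZ, hY, h1, ?_, trivial, ?_, ?_, ?_, ?_, ?_⟩
    · rw [← h1] at hXY
      simpa using hXY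
    · simp
    · simp
    · simp
    · simp
    · simp only [one_mul, Nat.sub_self, pow_zero, mul_one]
      rw [show Z * Y * X = X * Y * Z by ring]) N 2 hN δ hδ (fun i : ℕ => (2 : ℝ) ^ ((2 : ℕ) ^ i))
    (fun i => one_lt_pow₀ (by norm_num) (by positivity)) hY (fun i => by
      rw [← pow_mul, ← pow_succ])
  have h2 := h1.1 (fun ε hε => by
    obtain ⟨κ, hκ⟩ := h ε hε
    exact ⟨κ, fun a b c ha hb hab habc hT => hκ a b c ha hb hab habc ⟨hT.2.1, hT.2.2.1⟩⟩)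
  intro ε hε
  obtain ⟨κ, hκ⟩ := h2 ε hε
  exact ⟨κ, fun a b c ha hb hab habc => hκ a b c ha hb hab habc trivial⟩

/-- **The bridge.** -/
theorem bridge (N : ℕ) (δ : ℝ) (hN : 1 ≤ N) (hδ : 0 < δ) (θ : ℝ) (d e : ℕ) (hd : 1 ≤ d)
    (hde : (d : ℝ) * θ = 1 + e) (K : ℝ) (hK : 1 ≤ K)
    (h : ∀ ε : ℝ, 0 < ε → ∃ κ : ℝ, 0 < κ ∧ ∀ a b c : ℕ, 0 < a → 0 < b → Nat.Coprime a b → a + b = c →
      N ∣ a → (a : ℝ) ≤ δ * c → ∃ M : ℝ, ∃ r : ℕ, (c : ℝ) ^ d ≤ K * M ∧ κ * M ^ (θ - ε) ≤ r ∧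
        (r : ℝ) ≤ K * R (a * b * c) * (c : ℝ) ^ e) : ABC := by
  refine near N δ hN hδ fun ε hε => ?_
  have hd0 : (0 : ℝ) < d := by exact_mod_cast hd
  set ε' : ℝ := ε / ((1 + ε) * d) with hε'
  have hε'0 : 0 < ε' := by positivity
  have hdε : (d : ℝ) * ε' = ε / (1 + ε) := by
    rw [hε']; field_simp
  have hθε : 0 ≤ θ - ε' := by
    have h1 : (d : ℝ) * (θ - ε') = 1 + e - ε / (1 + ε) := by
      rw [mul_sub, hde, hdε]
    have h2 : ε / (1 + ε) ≤ 1 := by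
      rw [div_le_one (by linarith)]; linarith
    have h3 : (0 : ℝ) ≤ e := Nat.cast_nonneg e
    have h4 : 0 ≤ (d : ℝ) * (θ - ε') := by rw [h1]; linarith
    exact nonneg_of_mul_nonneg_right h4 hd0
  obtain ⟨κ, hκ0, hκ⟩ := h ε' hε'0
  set κ₁ : ℝ := K ^ (θ - ε') * K / κ with hκ₁
  have hK0 : 0 < K := by linarith
  have hκ₁0 : 0 < κ₁ := by positivity
  refine ⟨κ₁ ^ (1 + ε), ?_⟩
  intro a b c ha hb hab habc hT
  obtain ⟨M, r, h1, h2, h3⟩ := hκ a b c ha hb hab habc hT.1 hT.2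
  have hc : (1 : ℝ) ≤ c := by
    have : 1 ≤ c := by omega
    exact_mod_cast this
  have hc0 : (0 : ℝ) < c := by linarith
  have hR : (1 : ℝ) ≤ R (a * b * c) := by exact_mod_cast R_pos _
  have h4 : (c : ℝ) ^ d / K ≤ M := by
    rw [div_le_iff₀ hK0]; linarith
  have h5 : ((c : ℝ) ^ d / K) ^ (θ - ε') ≤ M ^ (θ - ε') :=
    Real.rpow_le_rpow (by positivity) h4 hθε
  have h6 : ((c : ℝ) ^ d / K) ^ (θ - ε') = (c : ℝ) ^ (1 + (e : ℝ) - ε / (1 + ε)) / K ^ (θ - ε') := by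
    rw [Real.div_rpow (by positivity) hK0.le, ← Real.rpow_natCast, ← Real.rpow_mul hc0.le, mul_sub,
      hde, hdε]
  have h7 : (c : ℝ) ^ (1 + (e : ℝ) - ε / (1 + ε)) = (c : ℝ) ^ (1 / (1 + ε)) * (c : ℝ) ^ e := by
    rw [← Real.rpow_natCast (c : ℝ) e, ← Real.rpow_add hc0]
    congr 1
    field_simp
    ring
  have h8 : κ * ((c : ℝ) ^ (1 / (1 + ε)) * (c : ℝ) ^ e / K ^ (θ - ε')) ≤
      K * R (a * b * c) * (c : ℝ) ^ e := by
    rw [← h7, ← h6]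
    calc κ * ((c : ℝ) ^ d / K) ^ (θ - ε') ≤ κ * M ^ (θ - ε') :=
          mul_le_mul_of_nonneg_left h5 hκ0.le
      _ ≤ r := h2
      _ ≤ _ := h3
  have hKp : 0 < K ^ (θ - ε') := Real.rpow_pos_of_pos hK0 _
  have hce : (0 : ℝ) < (c : ℝ) ^ e := by positivity
  have h9 : (c : ℝ) ^ (1 / (1 + ε)) ≤ κ₁ * R (a * b * c) := by
    rw [hκ₁]
    have h10 : (c : ℝ) ^ (1 / (1 + ε)) * (κ * (c : ℝ) ^ e / K ^ (θ - ε')) ≤
        (K ^ (θ - ε') * K / κ * R (a * b * c)) * (κ * (c : ℝ) ^ e / K ^ (θ - ε')) := by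
      calc (c : ℝ) ^ (1 / (1 + ε)) * (κ * (c : ℝ) ^ e / K ^ (θ - ε')) =
          κ * ((c : ℝ) ^ (1 / (1 + ε)) * (c : ℝ) ^ e / K ^ (θ - ε')) := by ring
        _ ≤ K * R (a * b * c) * (c : ℝ) ^ e := h8
        _ = _ := by field_simp
    exact le_of_mul_le_mul_right h10 (by positivity)
  calc (c : ℝ) = ((c : ℝ) ^ (1 / (1 + ε))) ^ (1 + ε) := by
        rw [← Real.rpow_mul hc0.le, one_div_mul_cancel (by linarith), Real.rpow_one]
    _ ≤ (κ₁ * R (a * b * c)) ^ (1 + ε) :=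
        Real.rpow_le_rpow (by positivity) h9 (by linarith)
    _ = κ₁ ^ (1 + ε) * (R (a * b * c) : ℝ) ^ (1 + ε) := by
        rw [Real.mul_rpow hκ₁0.le (by linarith)]

end Pool.Agent.N757.OC
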