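import Mathlib
import Pool.Agent.N757.OC.Near

/-!
# Radical inequalities with one cusp: consequences of the abc conjecture; multiples of signatures
-/

namespace Pool.Agent.N757.OC

open Filter Topology

theorem natAbs_coprime {u v : ℤ} (h : IsCoprime u v) : Nat.Coprime u.natAbs v.natAbs := by
  rw [Int.isCoprime_iff_gcd_eq_one] at h
  exact h

theorem fwd (h : ABC) {ε : ℝ} (hε : 0 < ε) : ∃ κ : ℝ, 0 < κ ∧ κ ≤ 1 ∧ ∀ u v w : ℤ, u ≠ 0 → v ≠ 0 → w ≠ 0 →
    IsCoprime u v → u + v = w → ∀ M : ℝ, 1 ≤ M → (M ≤ |(u : ℝ)| ∨ M ≤ |(v : ℝ)| ∨ M ≤ |(w : ℝ)|) →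
    κ * M ^ (1 - ε) ≤ R (u * v * w).natAbs := by
  obtain ⟨κ₀, hκ₀⟩ := h ε hε
  set κ₁ : ℝ := max κ₀ 1 with hκ₁
  have hκ₁1 : 1 ≤ κ₁ := le_max_right _ _
  have key : ∀ a b c : ℕ, 0 < a → 0 < b → Nat.Coprime a b → a + b = c → ∀ M : ℝ, 1 ≤ M → M ≤ c →
      κ₁⁻¹ * M ^ (1 - ε) ≤ R (a * b * c) := by
    intro a b c ha hb hab habc M hM hMc
    have h1 := hκ₀ a b c ha hb hab habc
    have hR : (1 : ℝ) ≤ R (a * b * c) := by exact_mod_cast R_pos _
    have h2 : M ≤ κ₁ * (R (a * b * c) : ℝ) ^ (1 + ε) := by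
      refine hMc.trans (h1.trans (mul_le_mul_of_nonneg_right (le_max_left _ _) ?_))
      exact Real.rpow_nonneg (by linarith) _
    have h3 : M ^ (1 / (1 + ε)) ≤ κ₁ * R (a * b * c) := by
      calc M ^ (1 / (1 + ε)) ≤ (κ₁ * (R (a * b * c) : ℝ) ^ (1 + ε)) ^ (1 / (1 + ε)) :=
            Real.rpow_le_rpow (by linarith) h2 (by positivity)
        _ = κ₁ ^ (1 / (1 + ε)) * R (a * b * c) := by
            rw [Real.mul_rpow (by linarith) (by positivity), ← Real.rpow_mul (by linarith),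
              mul_one_div_cancel (by linarith), Real.rpow_one]
        _ ≤ κ₁ ^ (1 : ℝ) * R (a * b * c) := by
            apply mul_le_mul_of_nonneg_right _ (by linarith)
            apply Real.rpow_le_rpow_of_exponent_le hκ₁1
            rw [div_le_one (by linarith)]; linarith
        _ = _ := by rw [Real.rpow_one]
    have h4 : M ^ (1 - ε) ≤ M ^ (1 / (1 + ε)) := by
      apply Real.rpow_le_rpow_of_exponent_le hM
      rw [le_div_iff₀ (by linarith)]
      nlinarith [sq_nonneg ε]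
    rw [inv_mul_le_iff₀ (by linarith)]
    linarith
  refine ⟨κ₁⁻¹, by positivity, inv_le_one_of_one_le₀ hκ₁1, ?_⟩
  intro u v w hu hv hw huv huvw M hM hMM
  have hu0 : 0 < u.natAbs := Int.natAbs_pos.2 hu
  have hv0 : 0 < v.natAbs := Int.natAbs_pos.2 hv
  have hw0 : 0 < w.natAbs := Int.natAbs_pos.2 hw
  have hvw : IsCoprime v w := by
    rw [← huvw]
    have := huv.symm.add_mul_left_right 1
    rwa [mul_one] at this
  have huw : IsCoprime u w := by
    rw [← huvw]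
    have := huv.add_mul_left_right 1
    rw [mul_one, add_comm] at this
    exact this
  have c1 := natAbs_coprime huv
  have c2 := natAbs_coprime hvw
  have c3 := natAbs_coprime huw
  have e1 : |(u : ℝ)| = (u.natAbs : ℝ) := by rw [Nat.cast_natAbs, Int.cast_abs]
  have e2 : |(v : ℝ)| = (v.natAbs : ℝ) := by rw [Nat.cast_natAbs, Int.cast_abs]
  have e3 : |(w : ℝ)| = (w.natAbs : ℝ) := by rw [Nat.cast_natAbs, Int.cast_abs]
  rw [e1, e2, e3] at hMM
  have hprod : (u * v * w).natAbs = u.natAbs * v.natAbs * w.natAbs := by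
    rw [Int.natAbs_mul, Int.natAbs_mul]
  rw [hprod]
  rcases (by omega : u.natAbs + v.natAbs = w.natAbs ∨ v.natAbs + w.natAbs = u.natAbs ∨
      u.natAbs + w.natAbs = v.natAbs) with h1 | h1 | h1
  · have hle : M ≤ w.natAbs := by
      have h2 : (u.natAbs : ℝ) ≤ w.natAbs := by exact_mod_cast (by omega : u.natAbs ≤ w.natAbs)
      have h3 : (v.natAbs : ℝ) ≤ w.natAbs := by exact_mod_cast (by omega : v.natAbs ≤ w.natAbs)
      rcases hMM with h | h | h <;> linarith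
    exact key _ _ _ hu0 hv0 c1 h1 M hM hle
  · have hle : M ≤ u.natAbs := by
      have h2 : (w.natAbs : ℝ) ≤ u.natAbs := by exact_mod_cast (by omega : w.natAbs ≤ u.natAbs)
      have h3 : (v.natAbs : ℝ) ≤ u.natAbs := by exact_mod_cast (by omega : v.natAbs ≤ u.natAbs)
      rcases hMM with h | h | h <;> linarith
    have := key _ _ _ hv0 hw0 c2 h1 M hM hle
    rwa [show v.natAbs * w.natAbs * u.natAbs = u.natAbs * v.natAbs * w.natAbs by ring] at this
  · have hle : M ≤ v.natAbs := by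
      have h2 : (w.natAbs : ℝ) ≤ v.natAbs := by exact_mod_cast (by omega : w.natAbs ≤ v.natAbs)
      have h3 : (u.natAbs : ℝ) ≤ v.natAbs := by exact_mod_cast (by omega : u.natAbs ≤ v.natAbs)
      rcases hMM with h | h | h <;> linarith
    have := key _ _ _ hu0 hw0 c3 h1 M hM hle
    rwa [show u.natAbs * w.natAbs * v.natAbs = u.natAbs * v.natAbs * w.natAbs by ring] at this

theorem le_rpow_inv {x M : ℝ} (hx : 0 ≤ x) {p : ℕ} (hp : 1 ≤ p) (h : x ^ p ≤ M) :
    x ≤ M ^ (1 / (p : ℝ)) := by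
  have h1 := Real.pow_rpow_inv_natCast hx (show p ≠ 0 by omega)
  rw [← h1, one_div]
  exact Real.rpow_le_rpow (by positivity) h (by positivity)

theorem abs_eq_one_of {x y : ℤ} {p : ℕ} (hp : 1 ≤ p) (h : IsCoprime x y) {q : ℕ}
    (hxy : |x| ^ p = |y| ^ q) : |x| = 1 := by
  have h1 : IsCoprime (|x| ^ p) (|y| ^ q) := by
    apply IsCoprime.pow
    exact (IsCoprime.abs_left_iff x |y|).2 ((IsCoprime.abs_right_iff x y).2 h)
  rw [hxy] at h1
  rw [isCoprime_self] at h1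
  rw [← hxy] at h1
  have h2 : IsUnit |x| := (isUnit_pow_iff (by omega)).1 h1
  rcases Int.isUnit_iff.1 h2 with h3 | h3
  · exact h3
  · exfalso
    have := abs_nonneg x
    omega

theorem abc_oneCusp (h : ABC) (p q N : ℕ) (hp : 1 ≤ p) (hq : 1 ≤ q) (δ : ℝ) : OneCusp p q N δ := by
  intro ε hε
  obtain ⟨κ, hκ0, hκ1, hκ⟩ := fwd h hε
  refine ⟨κ, hκ0, ?_⟩
  intro x y hxy hne _ _
  set M : ℝ := max (|(x : ℝ)| ^ p) (|(y : ℝ)| ^ q) with hM
  set F : ℤ := x ^ p - y ^ q with hF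
  have hF0 : F ≠ 0 := sub_ne_zero.2 hne
  have hR : (1 : ℝ) ≤ R F.natAbs := by exact_mod_cast R_pos _
  by_cases hx0 : x = 0
  · have hy1 : |y| = 1 := by
      rw [hx0, isCoprime_zero_left] at hxy
      exact Int.isUnit_iff_abs_eq.1 hxy
    have hM1 : M = 1 := by
      have : |(y : ℝ)| = 1 := by exact_mod_cast hy1
      rw [hM, this, hx0]
      simp [zero_pow (show p ≠ 0 by omega)]
    rw [hM1, Real.one_rpow, mul_one]
    linarith
  by_cases hy0 : y = 0
  · have hx1 : |x| = 1 := by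
      rw [hy0, isCoprime_zero_right] at hxy
      exact Int.isUnit_iff_abs_eq.1 hxy
    have hM1 : M = 1 := by
      have : |(x : ℝ)| = 1 := by exact_mod_cast hx1
      rw [hM, this, hy0]
      simp [zero_pow (show q ≠ 0 by omega)]
    rw [hM1, Real.one_rpow, mul_one]
    linarith
  have hx1 : (1 : ℝ) ≤ |(x : ℝ)| := by exact_mod_cast Int.one_le_abs hx0
  have hy1 : (1 : ℝ) ≤ |(y : ℝ)| := by exact_mod_cast Int.one_le_abs hy0
  have hM1 : 1 ≤ M := le_max_of_le_left (one_le_pow₀ hx1)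
  have hM0 : 0 < M := by linarith
  have hcop : IsCoprime F (y ^ q) := by
    have h1 : IsCoprime (x ^ p) (y ^ q) := hxy.pow
    have h2 := h1.add_mul_right_left (-1)
    have h3 : x ^ p + -1 * y ^ q = F := by rw [hF]; ring
    rwa [h3] at h2
  have h1 := hκ F (y ^ q) (x ^ p) hF0 (pow_ne_zero _ hy0) (pow_ne_zero _ hx0) hcop (by rw [hF]; ring) M hM1
    (Or.inr (by
      rw [hM]
      rcases le_total (|(x : ℝ)| ^ p) (|(y : ℝ)| ^ q) with h | h
      · left; rw [max_eq_right h]; push_cast; rw [abs_pow]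
      · right; rw [max_eq_left h]; push_cast; rw [abs_pow]))
  have h2 : R (F * y ^ q * x ^ p).natAbs ≤ R F.natAbs * (x.natAbs * y.natAbs) := by
    apply R_bound (Int.natAbs_ne_zero.2 hF0)
      (mul_ne_zero (Int.natAbs_ne_zero.2 hx0) (Int.natAbs_ne_zero.2 hy0))
    intro ℓ hℓ hd
    rw [Int.natAbs_mul, Int.natAbs_mul, Int.natAbs_pow, Int.natAbs_pow] at hd
    rcases (Nat.Prime.dvd_mul hℓ).1 hd with h | h
    · rcases (Nat.Prime.dvd_mul hℓ).1 h with h | h
      · exact h.mul_right _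
      · exact ((hℓ.dvd_of_dvd_pow h).mul_left _).mul_left _
    · exact ((hℓ.dvd_of_dvd_pow h).mul_right _).mul_left _
  have h3 : (R (F * y ^ q * x ^ p).natAbs : ℝ) ≤ R F.natAbs * (|(x : ℝ)| * |(y : ℝ)|) := by
    have e1 : |(x : ℝ)| = (x.natAbs : ℝ) := by rw [Nat.cast_natAbs, Int.cast_abs]
    have e2 : |(y : ℝ)| = (y.natAbs : ℝ) := by rw [Nat.cast_natAbs, Int.cast_abs]
    rw [e1, e2]
    exact_mod_cast h2
  have h4 : |(x : ℝ)| ≤ M ^ (1 / (p : ℝ)) := le_rpow_inv (abs_nonneg _) hp (le_max_left _ _)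
  have h5 : |(y : ℝ)| ≤ M ^ (1 / (q : ℝ)) := le_rpow_inv (abs_nonneg _) hq (le_max_right _ _)
  have h6 : κ * M ^ (1 - ε) ≤ R F.natAbs * (M ^ (1 / (p : ℝ)) * M ^ (1 / (q : ℝ))) := by
    refine h1.trans (h3.trans (mul_le_mul_of_nonneg_left ?_ (by linarith)))
    exact mul_le_mul h4 h5 (abs_nonneg _) (by positivity)
  have h7 : M ^ (1 - 1 / (p : ℝ) - 1 / (q : ℝ) - ε) * (M ^ (1 / (p : ℝ)) * M ^ (1 / (q : ℝ))) =
      M ^ (1 - ε) := by
    rw [← Real.rpow_add hM0, ← Real.rpow_add hM0]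
    congr 1
    ring
  have h8 : (κ * M ^ (1 - 1 / (p : ℝ) - 1 / (q : ℝ) - ε)) * (M ^ (1 / (p : ℝ)) * M ^ (1 / (q : ℝ))) ≤
      R F.natAbs * (M ^ (1 / (p : ℝ)) * M ^ (1 / (q : ℝ))) := by
    rw [mul_assoc, h7]; exact h6
  exact le_of_mul_le_mul_right h8 (by positivity)

theorem abc_twoCusps (h : ABC) (n N : ℕ) (hn : 1 ≤ n) (δ : ℝ) : TwoCusps n N δ := by
  intro ε hε
  obtain ⟨κ, hκ0, hκ1, hκ⟩ := fwd h hε
  refine ⟨κ / 2, by positivity, ?_⟩
  intro u v x huv hu0 hv0 hsum _ _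
  set M : ℝ := max |(u : ℝ)| |(v : ℝ)| with hM
  have hR : (1 : ℝ) ≤ R (u * v).natAbs := by exact_mod_cast R_pos _
  have hu1 : (1 : ℝ) ≤ |(u : ℝ)| := by exact_mod_cast Int.one_le_abs hu0
  have hM1 : 1 ≤ M := le_max_of_le_left hu1
  have hM0 : 0 < M := by linarith
  by_cases hx0 : x = 0
  · have h1 : v = -u := by
      rw [hx0, zero_pow (show n ≠ 0 by omega)] at hsum
      linarith
    have h2 : |u| = 1 := by
      rw [h1] at huv
      have := (IsCoprime.neg_right_iff u u).1 huv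
      rw [isCoprime_self] at this
      exact Int.isUnit_iff_abs_eq.1 this
    have hM1 : M = 1 := by
      have h3 : |(u : ℝ)| = 1 := by exact_mod_cast h2
      rw [hM, h1]
      push_cast
      rw [abs_neg, h3, max_self]
    rw [hM1, Real.one_rpow, mul_one]
    linarith
  have hx1 : (1 : ℝ) ≤ |(x : ℝ)| := by exact_mod_cast Int.one_le_abs hx0
  have h1 := hκ u v (x ^ n) hu0 hv0 (pow_ne_zero _ hx0) huv hsum M hM1 (by
    rw [hM]
    rcases le_total |(u : ℝ)| |(v : ℝ)| with h | h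
    · right; left; rw [max_eq_right h]
    · left; rw [max_eq_left h])
  have h2 : R (u * v * x ^ n).natAbs ≤ R (u * v).natAbs * x.natAbs := by
    apply R_bound (Int.natAbs_ne_zero.2 (mul_ne_zero hu0 hv0)) (Int.natAbs_ne_zero.2 hx0)
    intro ℓ hℓ hd
    rw [Int.natAbs_mul, Int.natAbs_pow] at hd
    rcases (Nat.Prime.dvd_mul hℓ).1 hd with h | h
    · exact h.mul_right _
    · exact (hℓ.dvd_of_dvd_pow h).mul_left _
  have h3 : (R (u * v * x ^ n).natAbs : ℝ) ≤ R (u * v).natAbs * |(x : ℝ)| := by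
    have e1 : |(x : ℝ)| = (x.natAbs : ℝ) := by rw [Nat.cast_natAbs, Int.cast_abs]
    rw [e1]
    exact_mod_cast h2
  have hnR : (1 : ℝ) ≤ n := by exact_mod_cast hn
  have h4 : |(x : ℝ)| ≤ 2 * M ^ (1 / (n : ℝ)) := by
    have h5 : |(x : ℝ)| ^ n ≤ 2 * M := by
      rw [← abs_pow]
      have : ((x ^ n : ℤ) : ℝ) = u + v := by rw [← hsum]; push_cast; ring
      push_cast at this
      rw [this]
      calc |(u : ℝ) + v| ≤ |(u : ℝ)| + |(v : ℝ)| := abs_add_le _ _
        _ ≤ M + M := add_le_add (le_max_left _ _) (le_max_right _ _)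
        _ = _ := by ring
    have h6 := le_rpow_inv (abs_nonneg _) hn h5
    rw [Real.mul_rpow (by norm_num) hM0.le] at h6
    refine h6.trans (mul_le_mul_of_nonneg_right ?_ (by positivity))
    calc (2 : ℝ) ^ (1 / (n : ℝ)) ≤ 2 ^ (1 : ℝ) := by
          apply Real.rpow_le_rpow_of_exponent_le (by norm_num)
          rw [div_le_one (by linarith)]; exact hnR
      _ = 2 := Real.rpow_one 2
  have h6 : κ * M ^ (1 - ε) ≤ R (u * v).natAbs * (2 * M ^ (1 / (n : ℝ))) :=
    h1.trans (h3.trans (mul_le_mul_of_nonneg_left h4 (by linarith)))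
  have h7 : M ^ (1 - 1 / (n : ℝ) - ε) * M ^ (1 / (n : ℝ)) = M ^ (1 - ε) := by
    rw [← Real.rpow_add hM0]
    congr 1
    ring
  have h8 : (κ / 2 * M ^ (1 - 1 / (n : ℝ) - ε)) * (2 * M ^ (1 / (n : ℝ))) ≤
      R (u * v).natAbs * (2 * M ^ (1 / (n : ℝ))) := by
    calc (κ / 2 * M ^ (1 - 1 / (n : ℝ) - ε)) * (2 * M ^ (1 / (n : ℝ))) =
        κ * (M ^ (1 - 1 / (n : ℝ) - ε) * M ^ (1 / (n : ℝ))) := by ring
      _ = κ * M ^ (1 - ε) := by rw [h7]
      _ ≤ _ := h6
  exact le_of_mul_le_mul_right h8 (by positivity)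

/-- the inequality for `(m p, m q)` implies the one for `(p, q)` -/
theorem oneCusp_mul (m p q N : ℕ) (hm : 1 ≤ m) (hp : 1 ≤ p) (hq : 1 ≤ q) (δ : ℝ) (hδ : 0 < δ)
    (h : OneCusp (p * m) (q * m) N δ) : OneCusp p q N (δ / m) := by
  intro ε hε
  have hm0 : (0 : ℝ) < m := by exact_mod_cast hm
  have hm1 : (1 : ℝ) ≤ m := by exact_mod_cast hm
  obtain ⟨κ, hκ0, hκ⟩ := h (ε / m) (by positivity)
  refine ⟨min (κ / m) 1, lt_min (by positivity) one_pos, ?_⟩
  intro x y hxy hne hN hclose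
  set M : ℝ := max (|(x : ℝ)| ^ p) (|(y : ℝ)| ^ q) with hM
  set F : ℤ := x ^ p - y ^ q with hF
  have hF0 : F ≠ 0 := sub_ne_zero.2 hne
  have hR : (1 : ℝ) ≤ R F.natAbs := by exact_mod_cast R_pos _
  have hM1 : 1 ≤ M := by
    by_cases hx0 : x = 0
    · have hy0 : y ≠ 0 := by
        rintro rfl
        rw [hx0, isCoprime_self] at hxy
        exact not_isUnit_zero hxy
      exact le_max_of_le_right (one_le_pow₀ (by exact_mod_cast Int.one_le_abs hy0))
    · exact le_max_of_le_left (one_le_pow₀ (by exact_mod_cast Int.one_le_abs hx0))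
  have hM0 : 0 < M := by linarith
  by_cases hne' : x ^ (p * m) = y ^ (q * m)
  · have h1 : |x| ^ (p * m) = |y| ^ (q * m) := by rw [← abs_pow, ← abs_pow, hne']
    have h2 : |x| = 1 := abs_eq_one_of (Nat.mul_pos hp hm) hxy h1
    have h3 : |y| = 1 := abs_eq_one_of (Nat.mul_pos hq hm) hxy.symm h1.symm
    have h4 : |(x : ℝ)| = 1 := by exact_mod_cast h2
    have h5 : |(y : ℝ)| = 1 := by exact_mod_cast h3
    have h6 : M = 1 := by rw [hM, h4, h5, one_pow, one_pow, max_self]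
    rw [h6, Real.one_rpow, mul_one]
    exact (min_le_right _ _).trans hR
  · set G : ℤ := ∑ i ∈ Finset.range m, (x ^ p) ^ i * (y ^ q) ^ (m - 1 - i) with hG
    have hFG : x ^ (p * m) - y ^ (q * m) = F * G := by
      rw [pow_mul, pow_mul, hF, hG, mul_comm]
      exact ((Commute.all (x ^ p) (y ^ q)).geom_sum₂_mul m).symm
    have hG0 : G ≠ 0 := by
      intro h0
      apply hne'
      rw [h0, mul_zero] at hFG
      linarith
    have hGle : |(G : ℝ)| ≤ m * M ^ (m - 1) := by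
      rw [hG]
      push_cast
      calc |∑ i ∈ Finset.range m, ((x : ℝ) ^ p) ^ i * ((y : ℝ) ^ q) ^ (m - 1 - i)| ≤
          ∑ i ∈ Finset.range m, |((x : ℝ) ^ p) ^ i * ((y : ℝ) ^ q) ^ (m - 1 - i)| :=
            Finset.abs_sum_le_sum_abs _ _
        _ ≤ ∑ i ∈ Finset.range m, M ^ (m - 1) := by
            refine Finset.sum_le_sum fun i hi => ?_
            have hi' : i + (m - 1 - i) = m - 1 := by
              have := Finset.mem_range.1 hi
              omega
            have hx' : |(x : ℝ) ^ p| ≤ M := by rw [abs_pow]; exact le_max_left _ _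
            have hy' : |(y : ℝ) ^ q| ≤ M := by rw [abs_pow]; exact le_max_right _ _
            calc |((x : ℝ) ^ p) ^ i * ((y : ℝ) ^ q) ^ (m - 1 - i)| =
                |(x : ℝ) ^ p| ^ i * |(y : ℝ) ^ q| ^ (m - 1 - i) := by
                  rw [abs_mul, abs_pow ((x : ℝ) ^ p), abs_pow ((y : ℝ) ^ q)]
              _ ≤ M ^ i * M ^ (m - 1 - i) :=
                  mul_le_mul (pow_le_pow_left₀ (abs_nonneg _) hx' _)
                    (pow_le_pow_left₀ (abs_nonneg _) hy' _) (by positivity) (by positivity)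
              _ = M ^ (m - 1) := by rw [← pow_add, hi']
        _ = _ := by rw [Finset.sum_const, Finset.card_range, nsmul_eq_mul]
    have hMm : max (|(x : ℝ)| ^ (p * m)) (|(y : ℝ)| ^ (q * m)) = M ^ m := by
      rw [pow_mul, pow_mul, hM]
      rcases le_total (|(x : ℝ)| ^ p) (|(y : ℝ)| ^ q) with h1 | h1
      · rw [max_eq_right h1, max_eq_right (pow_le_pow_left₀ (by positivity) h1 m)]
      · rw [max_eq_left h1, max_eq_left (pow_le_pow_left₀ (by positivity) h1 m)]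
    have h1 := hκ x y hxy hne' (by rw [hFG]; exact hN.mul_right _) (by
      rw [hMm]
      have e1 : (x : ℝ) ^ (p * m) - (y : ℝ) ^ (q * m) = (F : ℝ) * G := by exact_mod_cast hFG
      have e2 : (F : ℝ) = (x : ℝ) ^ p - (y : ℝ) ^ q := by rw [hF]; push_cast; ring
      rw [e1, abs_mul, e2]
      calc |(x : ℝ) ^ p - (y : ℝ) ^ q| * |(G : ℝ)| ≤ (δ / m * M) * (m * M ^ (m - 1)) :=
            mul_le_mul hclose hGle (abs_nonneg _) (by positivity)
        _ = δ * (M * M ^ (m - 1)) := by field_simp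
        _ = δ * M ^ m := by rw [← pow_succ', Nat.sub_add_cancel hm])
    rw [hMm, hFG] at h1
    have h2 : R (F * G).natAbs ≤ R F.natAbs * G.natAbs := by
      apply R_bound (Int.natAbs_ne_zero.2 hF0) (Int.natAbs_ne_zero.2 hG0)
      intro ℓ hℓ hd
      rwa [Int.natAbs_mul] at hd
    have h3 : (R (F * G).natAbs : ℝ) ≤ R F.natAbs * (m * M ^ (m - 1)) := by
      have e1 : |(G : ℝ)| = (G.natAbs : ℝ) := by rw [Nat.cast_natAbs, Int.cast_abs]
      calc (R (F * G).natAbs : ℝ) ≤ R F.natAbs * (G.natAbs : ℝ) := by exact_mod_cast h2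
        _ ≤ _ := mul_le_mul_of_nonneg_left (by rw [← e1]; exact hGle) (by linarith)
    have hp0 : (0 : ℝ) < p := by exact_mod_cast hp
    have hq0 : (0 : ℝ) < q := by exact_mod_cast hq
    have h4 : (M ^ m) ^ (1 - 1 / ((p * m : ℕ) : ℝ) - 1 / ((q * m : ℕ) : ℝ) - ε / m) =
        M ^ (1 - 1 / (p : ℝ) - 1 / (q : ℝ) - ε) * M ^ (m - 1) := by
      rw [← Real.rpow_natCast M (m - 1), ← Real.rpow_natCast M m, ← Real.rpow_mul hM0.le,
        ← Real.rpow_add hM0]
      congr 1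
      rw [Nat.cast_sub hm]
      push_cast
      field_simp
      ring
    rw [h4] at h1
    have h5 : (κ / m * M ^ (1 - 1 / (p : ℝ) - 1 / (q : ℝ) - ε)) * (m * M ^ (m - 1)) ≤
        R F.natAbs * (m * M ^ (m - 1)) := by
      calc (κ / m * M ^ (1 - 1 / (p : ℝ) - 1 / (q : ℝ) - ε)) * (m * M ^ (m - 1)) =
          κ * (M ^ (1 - 1 / (p : ℝ) - 1 / (q : ℝ) - ε) * M ^ (m - 1)) := by field_simp
        _ ≤ _ := h1.trans h3
    have h6 := le_of_mul_le_mul_right h5 (by positivity)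
    refine le_trans (mul_le_mul_of_nonneg_right (min_le_left _ _) ?_) h6
    exact Real.rpow_nonneg hM0.le _

end Pool.Agent.N757.OC
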