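import Mathlib
import Pool.Agent.N757.OC.Fwd
import Pool.Agent.N757.OC.Defs

/-!
# Radical inequalities with one cusp: `x ^ q - y ^ 2` with `q` odd

Let `u + v = s ^ q` with `q = 2 j + 1`. With `X = - q² u`, `Y = v`, `R² = X Y` and
`A + E R = (X - q Y + (1 - q) R) (X + Y + 2 R) ^ j` one has
`A² - X Y E² = (X - Y) ^ q (X - q² Y)`, that is `y ^ q - x² = u v E²` for `x = A / q`,
`y = (q² u + v) s`; moreover `Y ∣ E`.
-/

set_option autoImplicit false

namespace Pool.Agent.N757.OC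

/-- the coefficients of `(X + Y + 2 R) ^ n = fst + snd R`, `R² = X Y` -/
def tw (X Y : ℤ) : ℕ → ℤ × ℤ
  | 0 => (1, 0)
  | n + 1 => ((X + Y) * (tw X Y n).1 + 2 * (X * Y) * (tw X Y n).2,
      2 * (tw X Y n).1 + (X + Y) * (tw X Y n).2)

theorem tw_norm (X Y : ℤ) (n : ℕ) :
    (tw X Y n).1 ^ 2 - X * Y * (tw X Y n).2 ^ 2 = (X - Y) ^ (2 * n) := by
  induction n with
  | zero => simp [tw]
  | succ n ih =>
    have e : (X - Y) ^ (2 * (n + 1)) = (X - Y) ^ (2 * n) * (X - Y) ^ 2 := by ring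
    rw [e, ← ih, tw]
    ring

/-- modulo `Y` -/
theorem tw_modY (X Y : ℤ) (n : ℕ) :
    Y ∣ (tw X Y n).1 - X ^ n ∧ Y ∣ X * (tw X Y n).2 - 2 * n * X ^ n := by
  induction n with
  | zero => simp [tw]
  | succ n ih =>
    obtain ⟨⟨r, hr⟩, ⟨t, ht⟩⟩ := ih
    have h1 : (tw X Y n).1 = X ^ n + Y * r := by linarith
    have h2 : X * (tw X Y n).2 = 2 * n * X ^ n + Y * t := by linarith
    refine ⟨⟨X ^ n + (X + Y) * r + 2 * (2 * n * X ^ n + Y * t), ?_⟩, ⟨?_, ?_⟩⟩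
    · have : (tw X Y (n + 1)).1 = (X + Y) * (tw X Y n).1 + 2 * Y * (X * (tw X Y n).2) := by
        rw [tw]; ring
      rw [this, h1, h2]; ring
    · exact 2 * X * r + (X + Y) * t + 2 * n * X ^ n
    · have : X * (tw X Y (n + 1)).2 = 2 * X * (tw X Y n).1 + (X + Y) * (X * (tw X Y n).2) := by
        rw [tw]; ring
      rw [this, h1, h2]; push_cast; ring

/-- modulo `X` -/
theorem tw_modX (X Y : ℤ) (n : ℕ) : X ∣ (tw X Y n).1 - Y ^ n := by
  induction n with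
  | zero => simp [tw]
  | succ n ih =>
    obtain ⟨r, hr⟩ := ih
    have h1 : (tw X Y n).1 = Y ^ n + X * r := by linarith
    refine ⟨Y ^ n + (X + Y) * r + 2 * Y * (tw X Y n).2, ?_⟩
    rw [tw]
    simp only
    rw [h1]; ring

/-- modulo `X - Y` -/
theorem tw_mod (X Y : ℤ) (n : ℕ) : (X - Y) ∣ (tw X Y (n + 1)).1 - 2 * 4 ^ n * Y ^ (n + 1) ∧
    (X - Y) ∣ (tw X Y (n + 1)).2 - 2 * 4 ^ n * Y ^ n := by
  induction n with
  | zero =>
    refine ⟨⟨1, ?_⟩, ⟨0, ?_⟩⟩ <;> simp [tw] <;> ring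
  | succ n ih =>
    obtain ⟨⟨r, hr⟩, ⟨t, ht⟩⟩ := ih
    have h1 : (tw X Y (n + 1)).1 = 2 * 4 ^ n * Y ^ (n + 1) + (X - Y) * r := by linarith
    have h2 : (tw X Y (n + 1)).2 = 2 * 4 ^ n * Y ^ n + (X - Y) * t := by linarith
    refine ⟨⟨2 * 4 ^ n * Y ^ (n + 1) + (X + Y) * r + 2 * X * Y * t + 4 * 4 ^ n * Y ^ (n + 1), ?_⟩,
      ⟨2 * r + (X + Y) * t + 2 * 4 ^ n * Y ^ n, ?_⟩⟩
    · rw [tw]
      simp only
      rw [h1, h2]; ring
    · rw [tw]
      simp only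
      rw [h1, h2]; ring

theorem tw_bound (X Y V : ℤ) (hX : |X| ≤ V) (hY : |Y| ≤ V) (n : ℕ) :
    |(tw X Y n).1| ≤ 4 ^ n * V ^ n ∧ |(tw X Y n).2| * V ≤ 4 ^ n * V ^ n := by
  have hV : 0 ≤ V := (abs_nonneg _).trans hX
  have hXY : |X + Y| ≤ 2 * V := by
    have := abs_add_le X Y
    linarith
  have hXY2 : |X * Y| ≤ V * V := by
    rw [abs_mul]
    exact mul_le_mul hX hY (abs_nonneg _) hV
  induction n with
  | zero => simp [tw]
  | succ n ih =>
    obtain ⟨h1, h2⟩ := ih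
    constructor
    · rw [tw]
      simp only
      calc |(X + Y) * (tw X Y n).1 + 2 * (X * Y) * (tw X Y n).2|
          ≤ |(X + Y) * (tw X Y n).1| + |2 * (X * Y) * (tw X Y n).2| := abs_add_le _ _
        _ = |X + Y| * |(tw X Y n).1| + 2 * (|X * Y| * |(tw X Y n).2|) := by
            rw [abs_mul, abs_mul, abs_mul 2, abs_two]; ring
        _ ≤ 2 * V * (4 ^ n * V ^ n) + 2 * (V * V * |(tw X Y n).2|) := by
            have e1 := mul_le_mul hXY h1 (abs_nonneg _) (by linarith)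
            have e2 := mul_le_mul_of_nonneg_right hXY2 (abs_nonneg (tw X Y n).2)
            linarith
        _ = 2 * V * (4 ^ n * V ^ n) + 2 * V * (|(tw X Y n).2| * V) := by ring
        _ ≤ 2 * V * (4 ^ n * V ^ n) + 2 * V * (4 ^ n * V ^ n) := by
            have := mul_le_mul_of_nonneg_left h2 (by linarith : 0 ≤ 2 * V)
            linarith
        _ = _ := by ring
    · rw [tw]
      simp only
      calc |2 * (tw X Y n).1 + (X + Y) * (tw X Y n).2| * V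
          ≤ (|2 * (tw X Y n).1| + |(X + Y) * (tw X Y n).2|) * V :=
            mul_le_mul_of_nonneg_right (abs_add_le _ _) hV
        _ = 2 * V * |(tw X Y n).1| + |X + Y| * (|(tw X Y n).2| * V) := by
            rw [abs_mul, abs_mul, abs_two]; ring
        _ ≤ 2 * V * (4 ^ n * V ^ n) + 2 * V * (4 ^ n * V ^ n) := by
            have e1 := mul_le_mul_of_nonneg_left h1 (by linarith : 0 ≤ 2 * V)
            have e2 := mul_le_mul hXY h2 (mul_nonneg (abs_nonneg _) hV) (by linarith)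
            linarith
        _ = _ := by ring

/-- `E` -/
def tE (q X Y : ℤ) (j : ℕ) : ℤ := (1 - q) * (tw X Y j).1 + (X - q * Y) * (tw X Y j).2

/-- `A` -/
def tA (q X Y : ℤ) (j : ℕ) : ℤ := (X - q * Y) * (tw X Y j).1 + (1 - q) * (X * Y) * (tw X Y j).2

theorem tA_tE_norm (q X Y : ℤ) (j : ℕ) :
    tA q X Y j ^ 2 - X * Y * tE q X Y j ^ 2 = (X - Y) ^ (2 * j + 1) * (X - q ^ 2 * Y) := by
  have h := tw_norm X Y j
  have e : (X - Y) ^ (2 * j + 1) * (X - q ^ 2 * Y) =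
      (X - Y) ^ (2 * j) * ((X - Y) * (X - q ^ 2 * Y)) := by ring
  rw [e, ← h, tA, tE]
  ring

theorem tA_tE_cross (q X Y : ℤ) (j : ℕ) :
    tE q X Y j * (tw X Y j).1 - tA q X Y j * (tw X Y j).2 = (1 - q) * (X - Y) ^ (2 * j) := by
  rw [← tw_norm X Y j, tA, tE]
  ring

theorem tA_mod (q X Y : ℤ) (j : ℕ) :
    (X - Y) ∣ tA q X Y (j + 1) - (1 - q) * 4 ^ (j + 1) * Y ^ (j + 2) := by
  obtain ⟨⟨r, hr⟩, ⟨t, ht⟩⟩ := tw_mod X Y j
  have h1 : (tw X Y (j + 1)).1 = 2 * 4 ^ j * Y ^ (j + 1) + (X - Y) * r := by linarith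
  have h2 : (tw X Y (j + 1)).2 = 2 * 4 ^ j * Y ^ j + (X - Y) * t := by linarith
  refine ⟨(2 * 4 ^ j * Y ^ (j + 1)) + (X - q * Y) * r + (1 - q) * (X * Y) * t +
    (1 - q) * (2 * 4 ^ j * Y ^ (j + 1)), ?_⟩
  rw [tA, h1, h2]
  ring

theorem tE_dvd (X Y : ℤ) (j : ℕ) : Y ∣ tE (2 * j + 1) X Y j := by
  obtain ⟨⟨r, hr⟩, ⟨t, ht⟩⟩ := tw_modY X Y j
  refine ⟨(-(2 * j)) * r + t - (2 * j + 1) * (tw X Y j).2, ?_⟩
  have h1 : (tw X Y j).1 = X ^ j + Y * r := by linarith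
  have h2 : X * (tw X Y j).2 = 2 * j * X ^ j + Y * t := by linarith
  have e : tE (2 * j + 1) X Y j = -(2 * j) * (tw X Y j).1 + X * (tw X Y j).2 -
      (2 * j + 1) * Y * (tw X Y j).2 := by rw [tE]; ring
  rw [e, h1, h2]
  ring

theorem tE_bound (q X Y V : ℤ) (hq : 1 ≤ q) (hX : |X| ≤ V) (hY : |Y| ≤ V) (j : ℕ) :
    |tE q X Y j| ≤ 2 * q * (4 ^ j * V ^ j) := by
  have hV : 0 ≤ V := (abs_nonneg _).trans hX
  obtain ⟨h1, h2⟩ := tw_bound X Y V hX hY j
  have h3 : |1 - q| = q - 1 := by rw [abs_sub_comm, abs_of_nonneg (by linarith)]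
  have h4 : |X - q * Y| ≤ (1 + q) * V := by
    calc |X - q * Y| ≤ |X| + |q * Y| := by
          have := abs_add_le X (-(q * Y))
          rwa [abs_neg, ← sub_eq_add_neg] at this
      _ = |X| + q * |Y| := by rw [abs_mul, abs_of_nonneg (by linarith : (0 : ℤ) ≤ q)]
      _ ≤ V + q * V := add_le_add hX (mul_le_mul_of_nonneg_left hY (by linarith))
      _ = _ := by ring
  calc |tE q X Y j| ≤ |(1 - q) * (tw X Y j).1| + |(X - q * Y) * (tw X Y j).2| := abs_add_le _ _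
    _ = (q - 1) * |(tw X Y j).1| + |X - q * Y| * |(tw X Y j).2| := by
        rw [abs_mul, abs_mul, h3]
    _ ≤ (q - 1) * (4 ^ j * V ^ j) + (1 + q) * V * |(tw X Y j).2| := by
        have e1 := mul_le_mul_of_nonneg_left h1 (by linarith : (0 : ℤ) ≤ q - 1)
        have e2 := mul_le_mul_of_nonneg_right h4 (abs_nonneg (tw X Y j).2)
        linarith
    _ = (q - 1) * (4 ^ j * V ^ j) + (1 + q) * (|(tw X Y j).2| * V) := by ring
    _ ≤ (q - 1) * (4 ^ j * V ^ j) + (1 + q) * (4 ^ j * V ^ j) := by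
        have := mul_le_mul_of_nonneg_left h2 (by linarith : (0 : ℤ) ≤ 1 + q)
        linarith
    _ = _ := by ring

/-- **The cover.** -/
theorem odd_cover (j : ℕ) (hj : 1 ≤ j) (u v s : ℤ) (huv : IsCoprime u v) (hv : v ≠ 0)
    (hs : u + v = s ^ (2 * j + 1))
    (hd : ((2 * j + 1) * (2 * j) : ℤ) ∣ u) (hu : (2 * j + 1 : ℤ) ^ 2 * |u| ≤ |v|) :
    ∃ x H : ℤ, IsCoprime (((2 * j + 1) ^ 2 * u + v) * s) x ∧ H ≠ 0 ∧
      |H| * |v| ≤ 2 * (2 * j + 1) * (4 ^ j * |v| ^ j) ∧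
      (((2 * j + 1) ^ 2 * u + v) * s) ^ (2 * j + 1) - x ^ 2 = u * v * (v * H) ^ 2 := by
  obtain ⟨q, hq⟩ : ∃ q : ℤ, q = 2 * j + 1 := ⟨_, rfl⟩
  have hj' : (1 : ℤ) ≤ j := by exact_mod_cast hj
  have hq3 : 3 ≤ q := by rw [hq]; linarith
  have hq1 : (2 * j : ℤ) = q - 1 := by rw [hq]; ring
  rw [← hq, hq1] at hd
  rw [← hq] at hu
  rw [← hq]
  obtain ⟨X, hX⟩ : ∃ X : ℤ, X = -(q ^ 2 * u) := ⟨_, rfl⟩
  obtain ⟨H, hH⟩ : v ∣ tE q X v j := by rw [hq]; exact tE_dvd X v j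
  obtain ⟨x, hx⟩ : ∃ x : ℤ, x = -((q * u + v) * (tw X v j).1 + (1 - q) * (q * u * v) * (tw X v j).2) :=
    ⟨_, rfl⟩
  have hAx : tA q X v j = q * x := by rw [tA, hx, hX]; ring
  have hqu : q ∣ u := dvd_trans ⟨q - 1, rfl⟩ hd
  have hqu1 : (q - 1) ∣ u := dvd_trans ⟨q, by ring⟩ hd
  have hqv : IsCoprime q v := huv.of_isCoprime_of_dvd_left hqu
  have hodd : (-1 : ℤ) ^ (2 * j + 1) = -1 := by rw [pow_succ, pow_mul]; norm_num
  have hmain : (((q ^ 2 * u + v) * s) ^ (2 * j + 1)) - x ^ 2 = u * v * (v * H) ^ 2 := by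
    have h1 := tA_tE_norm q X v j
    rw [hAx, hH] at h1
    have h2 : (X - v) ^ (2 * j + 1) = -(q ^ 2 * u + v) ^ (2 * j + 1) := by
      rw [show X - v = (-1) * (q ^ 2 * u + v) by rw [hX]; ring, mul_pow, hodd]; ring
    have h3 : X - q ^ 2 * v = -(q ^ 2 * s ^ (2 * j + 1)) := by rw [← hs, hX]; ring
    rw [h2, h3] at h1
    have h4 : q ^ 2 * ((((q ^ 2 * u + v) * s) ^ (2 * j + 1)) - x ^ 2) =
        q ^ 2 * (u * v * (v * H) ^ 2) := by
      rw [mul_pow]
      rw [hX] at h1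
      linear_combination -h1
    exact mul_left_cancel₀ (pow_ne_zero 2 (by linarith)) h4
  refine ⟨x, H, ?_, ?_, ?_, hmain⟩
  · -- coprimality
    have hy0 : (q ^ 2 * u + v) * s ≠ 0 := by
      intro h0
      rcases mul_eq_zero.1 h0 with h | h
      · have h1 : v = -(q ^ 2 * u) := by linarith
        have h2 : q ∣ v := by rw [h1]; exact ⟨-(q * u), by ring⟩
        have h3 : IsUnit q := hqv.isUnit_of_dvd' dvd_rfl h2
        rw [Int.isUnit_iff] at h3
        omega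
      · rw [h, zero_pow (by omega)] at hs
        have h1 : v = -u := by linarith
        have h2 : q ∣ v := by rw [h1]; exact hqu.neg_right
        have h3 : IsUnit q := hqv.isUnit_of_dvd' dvd_rfl h2
        rw [Int.isUnit_iff] at h3
        omega
    refine isCoprime_of_prime_dvd (fun h => hy0 h.1) ?_
    intro p hp hpy hpx
    have hpu : ¬ p ∣ u := by
      intro h
      have hpv : ¬ p ∣ v := fun h' => hp.not_unit (huv.isUnit_of_dvd' h h')
      rcases hp.dvd_or_dvd hpy with h1 | h1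
      · exact hpv ((dvd_add_right (h.mul_left _)).1 h1)
      · have h2 : p ∣ u + v := by rw [hs]; exact h1.trans (dvd_pow_self _ (by omega))
        exact hpv ((dvd_add_right h).1 h2)
    have hpv : ¬ p ∣ v := by
      intro h
      rcases hp.dvd_or_dvd hpy with h1 | h1
      · have h2 : p ∣ q ^ 2 * u := (dvd_add_left h).1 h1
        rcases hp.dvd_or_dvd h2 with h3 | h3
        · exact hpu ((hp.dvd_of_dvd_pow h3).trans hqu)
        · exact hpu h3
      · have h2 : p ∣ u + v := by rw [hs]; exact h1.trans (dvd_pow_self _ (by omega))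
        exact hpu ((dvd_add_left h).1 h2)
    have hpA : p ∣ tA q X v j := by rw [hAx]; exact hpx.mul_left _
    have hpE : p ∣ tE q X v j := by
      rw [hH]
      have h1 : p ∣ u * v * (v * H) ^ 2 := by
        rw [← hmain]
        exact dvd_sub (hpy.trans (dvd_pow_self _ (by omega))) (hpx.trans (dvd_pow_self _ (by norm_num)))
      rcases hp.dvd_or_dvd h1 with h2 | h2
      · rcases hp.dvd_or_dvd h2 with h3 | h3
        · exact absurd h3 hpu
        · exact absurd h3 hpv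
      · exact hp.dvd_of_dvd_pow h2
    have hpq1 : ¬ p ∣ 1 - q := fun h => hpu (by
      have : p ∣ q - 1 := by rw [show q - 1 = -(1 - q) by ring]; exact h.neg_right
      exact this.trans hqu1)
    have h1 : p ∣ (1 - q) * (X - v) ^ (2 * j) := by
      rw [← tA_tE_cross]
      exact dvd_sub (hpE.mul_right _) (hpA.mul_right _)
    rcases hp.dvd_or_dvd h1 with h2 | h2
    · exact hpq1 h2
    have h3 := hp.dvd_of_dvd_pow h2
    obtain ⟨i, rfl⟩ : ∃ i, j = i + 1 := ⟨j - 1, by omega⟩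
    have h4 : p ∣ (1 - q) * 4 ^ (i + 1) * v ^ (i + 2) := by
      have h5 := h3.trans (tA_mod q X v i)
      have h6 := dvd_sub hpA h5
      rwa [sub_sub_cancel] at h6
    rcases hp.dvd_or_dvd h4 with h5 | h5
    · rcases hp.dvd_or_dvd h5 with h6 | h6
      · exact hpq1 h6
      · have h7 : p ∣ 2 := by
          have h8 := hp.dvd_of_dvd_pow h6
          rw [show (4 : ℤ) = 2 ^ 2 by norm_num] at h8
          exact hp.dvd_of_dvd_pow h8
        exact hpu (h7.trans (dvd_trans ⟨(i + 1 : ℕ), by rw [← hq1]⟩ hqu1))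
    · exact hpv (hp.dvd_of_dvd_pow h5)
  · -- nonvanishing
    intro h0
    rw [h0, mul_zero] at hH
    have h1 : X ∣ (tw X v j).1 - v ^ j := tw_modX X v j
    have h2 : q ∣ X := ⟨-(q * u), by rw [hX]; ring⟩
    have h3 : q ∣ v ^ j := by
      have h4 : q ∣ (tw X v j).1 := by
        have h5 : (1 - q) * (tw X v j).1 + (X - q * v) * (tw X v j).2 = 0 := hH
        obtain ⟨X₁, hX₁⟩ := h2
        refine ⟨(tw X v j).1 - (X₁ - v) * (tw X v j).2, ?_⟩
        rw [hX₁] at h5 ⊢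
        linear_combination h5
      have h6 := dvd_sub h4 (h2.trans h1)
      rwa [sub_sub_cancel] at h6
    have h4 : IsUnit q := (hqv.pow_right (n := j)).isUnit_of_dvd' dvd_rfl h3
    rw [Int.isUnit_iff] at h4
    omega
  · -- size
    have h1 := tE_bound q X v |v| (by linarith) (by
      rw [hX, abs_neg, abs_mul, abs_of_nonneg (sq_nonneg q)]; exact hu) le_rfl j
    rw [hH, abs_mul] at h1
    calc |H| * |v| = |v| * |H| := mul_comm _ _
      _ ≤ _ := h1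

end Pool.Agent.N757.OC
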