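import Mathlib
import Pool.Agent.N757.OC.Odd2

/-!
# Radical inequalities with one cusp: the weighted arithmetic and geometric means

For `s = a + b`, `(w + a d) ^ s - (w + s d) ^ a w ^ b = d² G`: the difference of the `s`-th powers of the
weighted arithmetic and geometric means of `u = w + s d` and `w` is divisible by the square of
`d = (u - w) / s`.
-/

set_option autoImplicit false

namespace Pool.Agent.N757.OC

/-- `(w + c) ^ n = w ^ n + n w ^ (n - 1) c + c² T` -/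
def TT (w c : ℤ) : ℕ → ℤ
  | 0 => 0
  | n + 1 => (w + c) * TT w c n + n * w ^ (n - 1)

theorem TT_spec (w c : ℤ) (n : ℕ) : (w + c) ^ n = w ^ n + n * w ^ (n - 1) * c + c ^ 2 * TT w c n := by
  induction n with
  | zero => simp [TT]
  | succ n ih =>
    rw [pow_succ, ih, TT]
    rcases n with _ | n
    · simp [TT]
    · simp only [Nat.add_sub_cancel]
      push_cast
      ring

theorem TT_mod (w c : ℤ) (n : ℕ) : c ∣ 2 * w ^ 2 * TT w c n - n * (n - 1) * w ^ n := by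
  induction n with
  | zero => simp [TT]
  | succ n ih =>
    obtain ⟨r, hr⟩ := ih
    have h1 : 2 * w ^ 2 * TT w c n = n * (n - 1) * w ^ n + c * r := by linarith
    refine ⟨w * r + 2 * w ^ 2 * TT w c n, ?_⟩
    rw [TT]
    rcases n with _ | n
    · simp only [TT] at h1 ⊢
      simp only [mul_zero, Nat.cast_zero, zero_mul, zero_add] at h1 ⊢
      have : c * r = 0 := by linarith
      push_cast
      linear_combination -w * this
    · simp only [Nat.add_sub_cancel]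
      push_cast at h1 ⊢
      linear_combination w * h1

theorem TT_bound (w c B : ℤ) (hw : |w| ≤ B) (hc : |w + c| ≤ B) (n : ℕ) :
    |TT w c n| * B ^ 2 ≤ n ^ 2 * B ^ n := by
  have hB : 0 ≤ B := (abs_nonneg _).trans hw
  induction n with
  | zero => simp [TT]
  | succ n ih =>
    rw [TT]
    have h1 : |(w + c) * TT w c n + n * w ^ (n - 1)| ≤ B * |TT w c n| + n * |w| ^ (n - 1) := by
      calc |(w + c) * TT w c n + n * w ^ (n - 1)| ≤ |(w + c) * TT w c n| + |n * w ^ (n - 1)| :=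
            abs_add_le _ _
        _ = |w + c| * |TT w c n| + n * |w| ^ (n - 1) := by
            rw [abs_mul, abs_mul, abs_pow, Nat.abs_cast]
        _ ≤ _ := by
            have := mul_le_mul_of_nonneg_right hc (abs_nonneg (TT w c n))
            linarith
    have h2 : (n : ℤ) * |w| ^ (n - 1) * B ^ 2 ≤ n * B ^ (n + 1) := by
      rcases n with _ | n
      · simp
      · simp only [Nat.add_sub_cancel]
        have h3 : |w| ^ n ≤ B ^ n := pow_le_pow_left₀ (abs_nonneg _) hw n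
        calc ((n + 1 : ℕ) : ℤ) * |w| ^ n * B ^ 2 ≤ ((n + 1 : ℕ) : ℤ) * B ^ n * B ^ 2 := by
              gcongr
          _ = _ := by ring
    calc |(w + c) * TT w c n + n * w ^ (n - 1)| * B ^ 2
        ≤ (B * |TT w c n| + n * |w| ^ (n - 1)) * B ^ 2 := mul_le_mul_of_nonneg_right h1 (by positivity)
      _ = B * (|TT w c n| * B ^ 2) + n * |w| ^ (n - 1) * B ^ 2 := by ring
      _ ≤ B * (n ^ 2 * B ^ n) + n * B ^ (n + 1) := add_le_add (mul_le_mul_of_nonneg_left ih hB) h2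
      _ = (n ^ 2 + n) * B ^ (n + 1) := by ring
      _ ≤ _ := by
          apply mul_le_mul_of_nonneg_right _ (by positivity)
          push_cast
          nlinarith [(Nat.cast_nonneg n : (0 : ℤ) ≤ n)]

/-- the cofactor `G` -/
def GG (a b : ℕ) (w d : ℤ) : ℤ :=
  (a : ℤ) ^ 2 * TT w (a * d) (a + b) - ((a : ℤ) + b) ^ 2 * w ^ b * TT w ((a + b) * d) a

theorem GG_spec (a b : ℕ) (ha : 1 ≤ a) (w d : ℤ) :
    (w + a * d) ^ (a + b) - (w + (a + b) * d) ^ a * w ^ b = d ^ 2 * GG a b w d := by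
  have h1 := TT_spec w (a * d) (a + b)
  have h2 := TT_spec w ((a + b) * d) a
  obtain ⟨i, rfl⟩ : ∃ i, a = i + 1 := ⟨a - 1, by omega⟩
  rw [h1, h2, GG]
  have e1 : i + 1 + b - 1 = i + b := by omega
  rw [e1, Nat.add_sub_cancel]
  push_cast
  ring

theorem GG_mod (a b : ℕ) (w d : ℤ) :
    d ∣ 2 * w ^ 2 * GG a b w d - (a + b) * a * b * w ^ (a + b) := by
  obtain ⟨r, hr⟩ := TT_mod w (a * d) (a + b)
  obtain ⟨t, ht⟩ := TT_mod w ((a + b) * d) a
  refine ⟨a ^ 3 * r - (a + b) ^ 3 * w ^ b * t, ?_⟩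
  rw [GG]
  push_cast at hr ⊢
  have e : 2 * w ^ 2 * ((a : ℤ) ^ 2 * TT w (a * d) (a + b) -
      ((a : ℤ) + b) ^ 2 * w ^ b * TT w ((a + b) * d) a) =
      (a : ℤ) ^ 2 * (2 * w ^ 2 * TT w (a * d) (a + b)) -
      ((a : ℤ) + b) ^ 2 * w ^ b * (2 * w ^ 2 * TT w ((a + b) * d) a) := by ring
  have h1 : 2 * w ^ 2 * TT w (a * d) (a + b) = (a + b) * (a + b - 1) * w ^ (a + b) + a * d * r := by
    linarith
  have h2 : 2 * w ^ 2 * TT w ((a + b) * d) a = a * (a - 1) * w ^ a + (a + b) * d * t := by linarith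
  rw [e, h1, h2]
  ring

theorem GG_bound (a b : ℕ) (w d B : ℤ) (hw : |w| ≤ B) (h1 : |w + a * d| ≤ B)
    (h2 : |w + (a + b) * d| ≤ B) : |GG a b w d| * B ^ 2 ≤ 2 * a ^ 2 * (a + b) ^ 2 * B ^ (a + b) := by
  have hB : 0 ≤ B := (abs_nonneg _).trans hw
  have h3 := TT_bound w (a * d) B hw h1 (a + b)
  have h4 := TT_bound w ((a + b) * d) B hw h2 a
  have h5 : |w| ^ b ≤ B ^ b := pow_le_pow_left₀ (abs_nonneg _) hw b
  have h6 : |GG a b w d| ≤ (a : ℤ) ^ 2 * |TT w (a * d) (a + b)| +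
      ((a : ℤ) + b) ^ 2 * (|w| ^ b * |TT w ((a + b) * d) a|) := by
    rw [GG]
    calc _ ≤ |(a : ℤ) ^ 2 * TT w (a * d) (a + b)| +
          |((a : ℤ) + b) ^ 2 * w ^ b * TT w ((a + b) * d) a| := by
          have := abs_add_le ((a : ℤ) ^ 2 * TT w (a * d) (a + b))
            (-(((a : ℤ) + b) ^ 2 * w ^ b * TT w ((a + b) * d) a))
          rwa [abs_neg, ← sub_eq_add_neg] at this
      _ = _ := by
          rw [abs_mul, abs_mul, abs_mul, abs_pow w, abs_of_nonneg (sq_nonneg (a : ℤ)),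
            abs_of_nonneg (sq_nonneg ((a : ℤ) + b))]
          ring
  calc |GG a b w d| * B ^ 2 ≤ ((a : ℤ) ^ 2 * |TT w (a * d) (a + b)| +
      ((a : ℤ) + b) ^ 2 * (|w| ^ b * |TT w ((a + b) * d) a|)) * B ^ 2 :=
        mul_le_mul_of_nonneg_right h6 (by positivity)
    _ = (a : ℤ) ^ 2 * (|TT w (a * d) (a + b)| * B ^ 2) +
      ((a : ℤ) + b) ^ 2 * (|w| ^ b * (|TT w ((a + b) * d) a| * B ^ 2)) := by ring
    _ ≤ (a : ℤ) ^ 2 * (((a + b : ℕ) : ℤ) ^ 2 * B ^ (a + b)) +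
      ((a : ℤ) + b) ^ 2 * (B ^ b * (a ^ 2 * B ^ a)) := by
        apply add_le_add (mul_le_mul_of_nonneg_left h3 (by positivity))
        apply mul_le_mul_of_nonneg_left _ (by positivity)
        exact mul_le_mul h5 h4 (by positivity) (by positivity)
    _ = _ := by push_cast; ring

/-- **Transfer of radical inequalities along a map.** -/
theorem oneCusp_transfer (p q P Q N₁ N s : ℕ) (δ₁ δ C : ℝ) (hC : 1 ≤ C)
    (hθ : 0 < 1 - 1 / (P : ℝ) - 1 / (Q : ℝ))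
    (hexp : (s : ℝ) * (1 - 1 / (P : ℝ) - 1 / (Q : ℝ)) = s - 2 + (1 - 1 / (p : ℝ) - 1 / (q : ℝ)))
    (hs : 1 ≤ s) (h : OneCusp P Q N δ)
    (hmap : ∀ x y : ℤ, IsCoprime x y → x ^ p ≠ y ^ q → (N₁ : ℤ) ∣ x ^ p - y ^ q → ∀ M : ℝ, 1 ≤ M →
      M = max (|(x : ℝ)| ^ p) (|(y : ℝ)| ^ q) → |(x : ℝ) ^ p - (y : ℝ) ^ q| ≤ δ₁ * M →
      ∃ X Y : ℤ, IsCoprime X Y ∧ X ^ P ≠ Y ^ Q ∧ (N : ℤ) ∣ X ^ P - Y ^ Q ∧
        |(X : ℝ) ^ P - (Y : ℝ) ^ Q| ≤ δ * max (|(X : ℝ)| ^ P) (|(Y : ℝ)| ^ Q) ∧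
        M ^ s ≤ C * max (|(X : ℝ)| ^ P) (|(Y : ℝ)| ^ Q) ∧
        (R (X ^ P - Y ^ Q).natAbs : ℝ) * M ^ 2 ≤ C * R (x ^ p - y ^ q).natAbs * M ^ s) :
    OneCusp p q N₁ δ₁ := by
  intro ε hε
  obtain ⟨θ, hθe⟩ : ∃ θ : ℝ, θ = 1 - 1 / (P : ℝ) - 1 / (Q : ℝ) := ⟨_, rfl⟩
  rw [← hθe] at hθ hexp
  have hθ1 : θ ≤ 1 := by
    have h1 : 0 ≤ 1 / (P : ℝ) := by positivity
    have h2 : 0 ≤ 1 / (Q : ℝ) := by positivity
    rw [hθe]; linarith
  have hs1 : (1 : ℝ) ≤ s := by exact_mod_cast hs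
  obtain ⟨ε', hε'⟩ : ∃ ε' : ℝ, ε' = min (ε / s) (θ / 2) := ⟨_, rfl⟩
  have hε'0 : 0 < ε' := by rw [hε']; exact lt_min (by positivity) (by positivity)
  have hε'1 : s * ε' ≤ ε := by
    have h1 : ε' ≤ ε / s := by rw [hε']; exact min_le_left _ _
    rw [le_div_iff₀ (by linarith)] at h1
    linarith
  have hε'2 : ε' ≤ θ / 2 := by rw [hε']; exact min_le_right _ _
  obtain ⟨κ, hκ0, hκ⟩ := h ε' hε'0
  refine ⟨κ / C ^ 2, by positivity, ?_⟩
  intro x y hxy hne hdvd hnear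
  obtain ⟨M, hM⟩ : ∃ M : ℝ, M = max (|(x : ℝ)| ^ p) (|(y : ℝ)| ^ q) := ⟨_, rfl⟩
  rw [← hM] at hnear ⊢
  have hM1 : 1 ≤ M := by
    rw [hM]
    by_cases hx0 : x = 0
    · have hy : IsUnit y := by
        rw [hx0] at hxy
        exact isCoprime_zero_left.1 hxy
      refine le_trans ?_ (le_max_right _ _)
      rcases Int.isUnit_iff.1 hy with h | h <;> simp [h]
    · refine le_trans ?_ (le_max_left _ _)
      exact one_le_pow₀ (by exact_mod_cast Int.one_le_abs hx0)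
  have hM0 : 0 < M := by linarith
  obtain ⟨X, Y, hXY, hXne, hXd, hXn, hXM, hXR⟩ := hmap x y hxy hne hdvd M hM1 hM hnear
  have key := hκ X Y hXY hXne hXd hXn
  obtain ⟨M', hM'⟩ : ∃ M' : ℝ, M' = max (|(X : ℝ)| ^ P) (|(Y : ℝ)| ^ Q) := ⟨_, rfl⟩
  rw [← hM', ← hθe] at key
  rw [← hM'] at hXM
  have hθε : 0 < θ - ε' := by linarith
  have h1 : M ^ s / C ≤ M' := by
    rw [div_le_iff₀ (by linarith)]; linarith
  have h2 : κ * (M ^ s / C) ^ (θ - ε') * M ^ 2 ≤ C * R (x ^ p - y ^ q).natAbs * M ^ s := by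
    calc κ * (M ^ s / C) ^ (θ - ε') * M ^ 2 ≤ κ * M' ^ (θ - ε') * M ^ 2 := by gcongr
      _ ≤ (R (X ^ P - Y ^ Q).natAbs : ℝ) * M ^ 2 := mul_le_mul_of_nonneg_right key (by positivity)
      _ ≤ _ := hXR
  have h3 : (M ^ s / C) ^ (θ - ε') = M ^ (s * (θ - ε')) / C ^ (θ - ε') := by
    rw [Real.div_rpow (by positivity) (by linarith), ← Real.rpow_natCast M s,
      ← Real.rpow_mul hM0.le]
  have h4 : C ^ (θ - ε') ≤ C := by
    calc C ^ (θ - ε') ≤ C ^ (1 : ℝ) := Real.rpow_le_rpow_of_exponent_le hC (by linarith)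
      _ = C := Real.rpow_one C
  have hC0 : 0 < C := by linarith
  have hCp : 0 < C ^ (θ - ε') := Real.rpow_pos_of_pos hC0 _
  have hR0 : (0 : ℝ) ≤ R (x ^ p - y ^ q).natAbs := Nat.cast_nonneg _
  have h5 : κ * M ^ (s * (θ - ε')) * M ^ 2 ≤ C ^ 2 * (R (x ^ p - y ^ q).natAbs * M ^ s) := by
    rw [h3] at h2
    have e : κ * M ^ (s * (θ - ε')) * M ^ 2 =
        C ^ (θ - ε') * (κ * (M ^ (s * (θ - ε')) / C ^ (θ - ε')) * M ^ 2) := by field_simp
    rw [e]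
    calc _ ≤ C ^ (θ - ε') * (C * R (x ^ p - y ^ q).natAbs * M ^ s) :=
          mul_le_mul_of_nonneg_left h2 hCp.le
      _ ≤ C * (C * R (x ^ p - y ^ q).natAbs * M ^ s) :=
          mul_le_mul_of_nonneg_right h4 (by positivity)
      _ = _ := by ring
  have h6 : M ^ (1 - 1 / (p : ℝ) - 1 / (q : ℝ) - ε) * M ^ s ≤ M ^ (s * (θ - ε')) * M ^ 2 := by
    rw [← Real.rpow_natCast M s, ← Real.rpow_natCast M 2, ← Real.rpow_add hM0,
      ← Real.rpow_add hM0]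
    refine Real.rpow_le_rpow_of_exponent_le hM1 ?_
    push_cast
    linarith
  have hMs : 0 < M ^ s := by positivity
  have h7 : (κ / C ^ 2 * M ^ (1 - 1 / (p : ℝ) - 1 / (q : ℝ) - ε)) * M ^ s ≤
      R (x ^ p - y ^ q).natAbs * M ^ s := by
    calc (κ / C ^ 2 * M ^ (1 - 1 / (p : ℝ) - 1 / (q : ℝ) - ε)) * M ^ s
        = κ / C ^ 2 * (M ^ (1 - 1 / (p : ℝ) - 1 / (q : ℝ) - ε) * M ^ s) := by ring
      _ ≤ κ / C ^ 2 * (M ^ (s * (θ - ε')) * M ^ 2) := mul_le_mul_of_nonneg_left h6 (by positivity)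
      _ = (κ * M ^ (s * (θ - ε')) * M ^ 2) / C ^ 2 := by ring
      _ ≤ (C ^ 2 * (R (x ^ p - y ^ q).natAbs * M ^ s)) / C ^ 2 := by gcongr
      _ = _ := by field_simp
  exact le_of_mul_le_mul_right h7 hMs

/-- the radical of `d² G` when `d ∣ F` -/
theorem R_sq_mul {F d G : ℤ} (hF : F ≠ 0) (hG : G ≠ 0) (hd : d ∣ F) :
    (R (d ^ 2 * G).natAbs : ℝ) ≤ R F.natAbs * |(G : ℝ)| := by
  have h1 : R (d ^ 2 * G).natAbs ≤ R F.natAbs * G.natAbs := by
    apply R_bound (Int.natAbs_ne_zero.2 hF) (Int.natAbs_ne_zero.2 hG)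
    intro ℓ hℓ h
    rw [← Int.natAbs_mul]
    have hp' : Prime (ℓ : ℤ) := Nat.prime_iff_prime_int.1 hℓ
    refine Int.natCast_dvd.1 ?_
    rcases hp'.dvd_or_dvd (Int.natCast_dvd.2 h) with h2 | h2
    · exact ((hp'.dvd_of_dvd_pow h2).trans hd).mul_right _
    · exact h2.mul_left _
  have e6 : (G.natAbs : ℝ) = |(G : ℝ)| := by rw [Nat.cast_natAbs, Int.cast_abs]
  rw [← e6]
  exact_mod_cast h1

theorem GG_ne_zero {a b : ℕ} (ha : 1 ≤ a) (hb : 1 ≤ b) {w d : ℤ} (hwd : IsCoprime w d)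
    (hd : (2 * ((a + b) * a * b) : ℤ) ∣ d) : GG a b w d ≠ 0 := by
  intro h0
  have h1 := GG_mod a b w d
  rw [h0, mul_zero, zero_sub, dvd_neg] at h1
  have h2 : d ∣ (a + b) * a * b := (hwd.symm.pow_right (n := a + b)).dvd_of_dvd_mul_right h1
  have ha' : (1 : ℤ) ≤ a := by exact_mod_cast ha
  have hb' : (1 : ℤ) ≤ b := by exact_mod_cast hb
  have hpos : (0 : ℤ) < (a + b) * a * b := by positivity
  have h3 := Int.le_of_dvd hpos (hd.trans h2)
  linarith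

end Pool.Agent.N757.OC
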