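import Mathlib
import Pool.Agent.N757.OC.Mean

/-!
# Radical inequalities with one cusp: two closure properties of the set of signatures
-/

set_option autoImplicit false

namespace Pool.Agent.N757.OC

/-- **First rule.** If `p a = q b = L`, the inequality for `(a + b, L)` implies that for `(p, q)`:
`X = (a x ^ p + b y ^ q) / (a + b)`, `Y = x y`. -/
theorem oneCusp_mean (a b p q L N : ℕ) (ha : 1 ≤ a) (hb : 1 ≤ b) (hp : 1 ≤ p) (hq : 1 ≤ q)
    (hpa : p * a = L) (hqb : q * b = L) (hL : 3 ≤ L) (δ : ℝ) (hδ : 0 < δ)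
    (h : OneCusp (a + b) L N δ) :
    ∃ δ₁ : ℝ, 0 < δ₁ ∧ OneCusp p q (N * ((a + b) * (2 * ((a + b) * a * b)))) δ₁ := by
  obtain ⟨s, hs⟩ : ∃ s : ℝ, s = a + b := ⟨_, rfl⟩
  have ha1 : (1 : ℝ) ≤ a := by exact_mod_cast ha
  have hb1 : (1 : ℝ) ≤ b := by exact_mod_cast hb
  have hs2 : 2 ≤ s := by rw [hs]; linarith
  have hp0 : (0 : ℝ) < p := by exact_mod_cast hp
  have hq0 : (0 : ℝ) < q := by exact_mod_cast hq
  have hL0 : (0 : ℝ) < L := by exact_mod_cast (by omega : 0 < L)
  obtain ⟨C, hC⟩ : ∃ C : ℝ, C = 2 ^ (a + b) + 2 * a ^ 2 * s ^ 2 := ⟨_, rfl⟩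
  have h2s : (1 : ℝ) ≤ 2 ^ (a + b) := one_le_pow₀ (by norm_num)
  have hC1 : 1 ≤ C := by
    have : 0 ≤ 2 * (a : ℝ) ^ 2 * s ^ 2 := by positivity
    rw [hC]; linarith
  have hC2 : 2 * (a : ℝ) ^ 2 * s ^ 2 ≤ C := by rw [hC]; linarith
  have hC3 : (2 : ℝ) ^ (a + b) ≤ C := by
    have : 0 ≤ 2 * (a : ℝ) ^ 2 * s ^ 2 := by positivity
    rw [hC]; linarith
  obtain ⟨δ₁, hδ₁⟩ : ∃ δ₁ : ℝ, δ₁ = min (1 / 2) (δ / C ^ 2) := ⟨_, rfl⟩
  have hδ₁0 : 0 < δ₁ := by rw [hδ₁]; exact lt_min (by positivity) (by positivity)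
  have hδ₁1 : δ₁ ≤ 1 / 2 := by rw [hδ₁]; exact min_le_left _ _
  have hδ₁2 : δ₁ * C ^ 2 ≤ δ := by
    have : δ₁ ≤ δ / C ^ 2 := by rw [hδ₁]; exact min_le_right _ _
    rwa [le_div_iff₀ (by positivity)] at this
  refine ⟨δ₁, hδ₁0, ?_⟩
  have epa : (p : ℝ) * a = L := by exact_mod_cast hpa
  have eqb : (q : ℝ) * b = L := by exact_mod_cast hqb
  have hcast : ((a + b : ℕ) : ℝ) = s := by rw [hs]; push_cast; ring
  refine oneCusp_transfer p q (a + b) L _ N (a + b) δ₁ δ C hC1 ?_ ?_ (by omega) h ?_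
  · rw [hcast]
    have h1 : 1 / s ≤ 1 / 2 := one_div_le_one_div_of_le (by norm_num) hs2
    have h2 : 1 / (L : ℝ) ≤ 1 / 3 := one_div_le_one_div_of_le (by norm_num) (by exact_mod_cast hL)
    linarith
  · rw [hcast]
    have h1 : s * (1 / (L : ℝ)) = 1 / p + 1 / q := by
      rw [hs]
      have e1 : (a : ℝ) = L / p := by field_simp; linarith
      have e2 : (b : ℝ) = L / q := by field_simp; linarith
      rw [e1, e2]
      field_simp
    have h2 : s * (1 / s) = 1 := by field_simp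
    linear_combination -h2 - h1
  · intro x y hxy hne hdvd M hM1 hM hnear
    have hM0 : 0 < M := by linarith
    obtain ⟨w, hw⟩ : ∃ w : ℤ, w = y ^ q := ⟨_, rfl⟩
    obtain ⟨d₁, hd₁⟩ := hdvd
    obtain ⟨d, hd⟩ : ∃ d : ℤ, d = N * (2 * (((a : ℤ) + b) * a * b)) * d₁ := ⟨_, rfl⟩
    have hF : x ^ p - y ^ q = (a + b) * d := by rw [hd₁, hd]; push_cast; ring
    have hu : x ^ p = w + (a + b) * d := by rw [hw]; linarith
    have hd2 : (2 * (((a : ℤ) + b) * a * b)) ∣ d := ⟨N * d₁, by rw [hd]; ring⟩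
    have hdF : d ∣ x ^ p - y ^ q := by rw [hF]; exact Dvd.intro_left _ rfl
    have hF0 : x ^ p - y ^ q ≠ 0 := sub_ne_zero.2 hne
    have huw : IsCoprime (x ^ p) w := by rw [hw]; exact hxy.pow
    have hwd : IsCoprime w d := by
      have h1 : IsCoprime w ((a + b) * d) := by
        have h2 := huw.symm
        rw [hu] at h2
        have h3 := h2.add_mul_left_right (-1)
        rwa [show w + (↑a + ↑b) * d + w * -1 = (↑a + ↑b) * d by ring] at h3
      exact h1.of_mul_right_right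
    have hud : IsCoprime (x ^ p) d := by
      have h1 : IsCoprime (x ^ p) ((a + b) * d) := by
        have h3 := huw.neg_right.add_mul_left_right 1
        rwa [show -w + x ^ p * 1 = (↑a + ↑b) * d by rw [hu]; ring] at h3
      exact h1.of_mul_right_right
    have had : IsCoprime (x ^ p) (b * d) := by
      have : (b : ℤ) ∣ d := dvd_trans ⟨2 * ((a + b) * a), by ring⟩ hd2
      exact (hud.of_isCoprime_of_dvd_right this).mul_right hud
    have hbd : IsCoprime w (a * d) := by
      have : (a : ℤ) ∣ d := dvd_trans ⟨2 * ((a + b) * b), by ring⟩ hd2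
      exact (hwd.of_isCoprime_of_dvd_right this).mul_right hwd
    obtain ⟨G, hG⟩ : ∃ G : ℤ, G = GG a b w d := ⟨_, rfl⟩
    have hG0 : G ≠ 0 := by rw [hG]; exact GG_ne_zero ha hb hwd hd2
    have hd0 : d ≠ 0 := by
      intro h0
      rw [h0, mul_zero] at hF
      exact hF0 hF
    have hmain : (w + a * d) ^ (a + b) - (x * y) ^ L = d ^ 2 * G := by
      have h1 := GG_spec a b ha w d
      have h2 : (x * y) ^ L = (w + (a + b) * d) ^ a * w ^ b := by
        rw [← hu, hw, ← pow_mul, ← pow_mul, hpa, hqb, mul_pow]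
      rw [h2, hG]
      exact h1
    -- sizes
    have hwM : |(w : ℝ)| ≤ M := by
      rw [hw, hM]; push_cast; rw [abs_pow]; exact le_max_right _ _
    have huM : |(w : ℝ) + s * d| ≤ M := by
      have : (w : ℝ) + s * d = x ^ p := by rw [hs]; exact_mod_cast hu.symm
      rw [this, hM, abs_pow]; exact le_max_left _ _
    have hsd : s * |(d : ℝ)| ≤ δ₁ * M := by
      have h1 : (x : ℝ) ^ p - (y : ℝ) ^ q = s * d := by rw [hs]; exact_mod_cast hF
      rw [h1, abs_mul, abs_of_pos (by linarith)] at hnear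
      exact hnear
    have hXM : |(w : ℝ) + a * d| ≤ M := by
      have e : (w : ℝ) + a * d = (b / s) * w + (a / s) * (w + s * d) := by
        rw [hs]; field_simp; ring
      rw [e]
      calc |b / s * (w : ℝ) + a / s * (w + s * d)| ≤ |b / s * (w : ℝ)| + |a / s * (w + s * d)| :=
            abs_add_le _ _
        _ = b / s * |(w : ℝ)| + a / s * |(w : ℝ) + s * d| := by
            rw [abs_mul, abs_mul, abs_of_pos (by positivity : 0 < b / s),
              abs_of_pos (by positivity : 0 < a / s)]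
        _ ≤ b / s * M + a / s * M := by gcongr
        _ = M := by rw [hs]; field_simp; ring
    have hXlow : M / 2 ≤ |(w : ℝ) + a * d| := by
      have h3 : δ₁ * M ≤ M / 2 := by
        have := mul_le_mul_of_nonneg_right hδ₁1 hM0.le
        linarith
      have hadd : (a : ℝ) * |(d : ℝ)| ≤ s * |(d : ℝ)| := by
        apply mul_le_mul_of_nonneg_right _ (abs_nonneg _)
        rw [hs]; linarith
      have hbdd : (b : ℝ) * |(d : ℝ)| ≤ s * |(d : ℝ)| := by
        apply mul_le_mul_of_nonneg_right _ (abs_nonneg _)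
        rw [hs]; linarith
      rcases max_cases (|(x : ℝ)| ^ p) (|(y : ℝ)| ^ q) with ⟨h1, -⟩ | ⟨h1, -⟩
      · -- `M = |x ^ p|`
        have h2 : M = |(w : ℝ) + s * d| := by
          rw [hM, h1, ← abs_pow]
          congr 1
          rw [hs]; exact_mod_cast hu
        have h4 := abs_sub_abs_le_abs_sub ((w : ℝ) + s * d) (b * d)
        rw [← h2, abs_mul, abs_of_pos (by linarith : (0 : ℝ) < b)] at h4
        have e : (w : ℝ) + s * d - b * d = w + a * d := by rw [hs]; ring
        rw [e] at h4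
        linarith
      · have h2 : M = |(w : ℝ)| := by
          rw [hM, h1, ← abs_pow]
          congr 1
          exact_mod_cast hw.symm
        have h4 := abs_sub_abs_le_abs_sub (w : ℝ) (-(a * d))
        rw [← h2, abs_neg, abs_mul, abs_of_pos (by linarith : (0 : ℝ) < a), sub_neg_eq_add] at h4
        linarith
    have hGM : |(G : ℝ)| * M ^ 2 ≤ 2 * a ^ 2 * s ^ 2 * M ^ (a + b) := by
      obtain ⟨B, hB⟩ : ∃ B : ℤ, B = max |x| 0 := ⟨_, rfl⟩
      have hint : ∃ Mi : ℤ, (Mi : ℝ) = M := by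
        rcases max_cases (|(x : ℝ)| ^ p) (|(y : ℝ)| ^ q) with ⟨h1, -⟩ | ⟨h1, -⟩
        · exact ⟨|x| ^ p, by rw [hM, h1]; push_cast; rfl⟩
        · exact ⟨|y| ^ q, by rw [hM, h1]; push_cast; rfl⟩
      obtain ⟨Mi, hMi⟩ := hint
      have h1 := GG_bound a b w d Mi (by rw [← hMi] at hwM; exact_mod_cast hwM)
        (by rw [← hMi] at hXM; exact_mod_cast hXM)
        (by rw [← hMi, hs] at huM; exact_mod_cast huM)
      rw [← hG] at h1
      rw [← hMi, hs]
      exact_mod_cast h1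
    refine ⟨w + a * d, x * y, ?_, ?_, ?_, ?_, ?_, ?_⟩
    · -- coprime
      have h1 : IsCoprime (w + a * d) x := by
        have h2 : IsCoprime x (w + a * d) := by
          by_contra hcon
          obtain ⟨ℓ, hℓ, h3, h4⟩ : ∃ ℓ : ℤ, Prime ℓ ∧ ℓ ∣ x ∧ ℓ ∣ w + a * d := by
            by_contra h5
            push Not at h5
            refine hcon (isCoprime_of_prime_dvd ?_ fun z hz hzx hzy => h5 z hz hzx hzy)
            rintro ⟨hx0, hy0⟩
            have h6 := h5 2 Int.prime_two (by rw [hx0]; exact dvd_zero 2)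
            rw [hy0] at h6
            exact h6 (dvd_zero 2)
          have h5 : ℓ ∣ x ^ p := h3.trans (dvd_pow_self _ (by omega))
          have h6 : ℓ ∣ b * d := by
            have := dvd_sub h5 h4
            rwa [hu, show w + (↑a + ↑b) * d - (w + ↑a * d) = b * d by ring] at this
          exact hℓ.not_unit (had.isUnit_of_dvd' h5 h6)
        exact h2.symm
      have h2 : IsCoprime (w + a * d) y := by
        have h3 : IsCoprime (a * d + w * 1) w := (hbd.symm.add_mul_left_left 1)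
        rw [mul_one, add_comm, hw] at h3
        rw [hw]
        exact (IsCoprime.pow_right_iff (by omega)).1 h3
      exact h1.mul_right h2
    · intro h1
      rw [h1, sub_self] at hmain
      exact mul_ne_zero (pow_ne_zero 2 hd0) hG0 hmain.symm
    · rw [hmain]
      exact (((Dvd.intro _ rfl : (N : ℤ) ∣ N * (2 * (((a : ℤ) + b) * a * b) * d₁)).trans
        (by rw [hd]; exact ⟨1, by ring⟩)).trans (dvd_pow_self d (by norm_num))).mul_right G
    · have h1 : ((w + a * d : ℤ) : ℝ) ^ (a + b) - ((x * y : ℤ) : ℝ) ^ L = d ^ 2 * G := by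
        exact_mod_cast hmain
      rw [h1, abs_mul, abs_pow]
      have h2 : M ^ (a + b) ≤ 2 ^ (a + b) * max (|((w + a * d : ℤ) : ℝ)| ^ (a + b))
          (|((x * y : ℤ) : ℝ)| ^ L) := by
        have h3 : (M / 2) ^ (a + b) ≤ |((w + a * d : ℤ) : ℝ)| ^ (a + b) := by
          push_cast
          exact pow_le_pow_left₀ (by positivity) hXlow _
        rw [div_pow, div_le_iff₀ (by positivity)] at h3
        calc M ^ (a + b) ≤ |((w + a * d : ℤ) : ℝ)| ^ (a + b) * 2 ^ (a + b) := h3
          _ ≤ _ := by rw [mul_comm]; exact mul_le_mul_of_nonneg_left (le_max_left _ _) (by positivity)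
      have h4 : |(d : ℝ)| ≤ δ₁ * M := by
        have : 1 * |(d : ℝ)| ≤ s * |(d : ℝ)| := mul_le_mul_of_nonneg_right (by linarith) (abs_nonneg _)
        linarith
      calc |(d : ℝ)| ^ 2 * |(G : ℝ)| ≤ (δ₁ * M) ^ 2 * |(G : ℝ)| :=
            mul_le_mul_of_nonneg_right (pow_le_pow_left₀ (abs_nonneg _) h4 2) (abs_nonneg _)
        _ = δ₁ ^ 2 * (|(G : ℝ)| * M ^ 2) := by ring
        _ ≤ δ₁ ^ 2 * (2 * a ^ 2 * s ^ 2 * M ^ (a + b)) := mul_le_mul_of_nonneg_left hGM (by positivity)
        _ ≤ δ₁ ^ 2 * (C * (C * max (|((w + a * d : ℤ) : ℝ)| ^ (a + b)) (|((x * y : ℤ) : ℝ)| ^ L))) := by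
            apply mul_le_mul_of_nonneg_left _ (by positivity)
            apply mul_le_mul hC2 _ (by positivity) (by linarith)
            exact h2.trans (mul_le_mul_of_nonneg_right hC3 (by positivity))
        _ = (δ₁ * (δ₁ * C ^ 2)) * max (|((w + a * d : ℤ) : ℝ)| ^ (a + b)) (|((x * y : ℤ) : ℝ)| ^ L) := by
            ring
        _ ≤ (1 * δ) * max (|((w + a * d : ℤ) : ℝ)| ^ (a + b)) (|((x * y : ℤ) : ℝ)| ^ L) := by
            apply mul_le_mul_of_nonneg_right _ (by positivity)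
            exact mul_le_mul (by linarith) hδ₁2 (by positivity) zero_le_one
        _ = _ := by rw [one_mul]
    · have h3 : (M / 2) ^ (a + b) ≤ |((w + a * d : ℤ) : ℝ)| ^ (a + b) := by
        push_cast
        exact pow_le_pow_left₀ (by positivity) hXlow _
      rw [div_pow, div_le_iff₀ (by positivity)] at h3
      calc M ^ (a + b) ≤ |((w + a * d : ℤ) : ℝ)| ^ (a + b) * 2 ^ (a + b) := h3
        _ ≤ max (|((w + a * d : ℤ) : ℝ)| ^ (a + b)) (|((x * y : ℤ) : ℝ)| ^ L) * C :=
            mul_le_mul (le_max_left _ _) hC3 (by positivity) (by positivity)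
        _ = _ := mul_comm _ _
    · rw [hmain]
      have h1 := R_sq_mul hF0 hG0 hdF
      have hR0 : (0 : ℝ) ≤ R (x ^ p - y ^ q).natAbs := Nat.cast_nonneg _
      calc (R (d ^ 2 * G).natAbs : ℝ) * M ^ 2 ≤ (R (x ^ p - y ^ q).natAbs * |(G : ℝ)|) * M ^ 2 :=
            mul_le_mul_of_nonneg_right h1 (by positivity)
        _ = R (x ^ p - y ^ q).natAbs * (|(G : ℝ)| * M ^ 2) := by ring
        _ ≤ R (x ^ p - y ^ q).natAbs * (C * M ^ (a + b)) := by
            apply mul_le_mul_of_nonneg_left _ hR0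
            exact hGM.trans (mul_le_mul_of_nonneg_right hC2 (by positivity))
        _ = _ := by ring

end Pool.Agent.N757.OC
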