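import Mathlib
import Pool.Agent.N757.OC.Mean

/-!
# Radical inequalities with one cusp: the second closure property
-/

set_option autoImplicit false

namespace Pool.Agent.N757.OC

/-- **Second rule.** The inequality for `(p, q (p + 1))` implies that for `(p, q)`: with
`x ^ p = y ^ q + p d` take `X = x (y ^ q - d)`, `Y = y`. -/
theorem oneCusp_mean' (p q N : ℕ) (hp : 2 ≤ p) (hq : 2 ≤ q) (δ : ℝ) (hδ : 0 < δ)
    (h : OneCusp p (q * (p + 1)) N δ) :
    ∃ δ₁ : ℝ, 0 < δ₁ ∧ OneCusp p q (N * (p * (2 * ((1 + p) * 1 * p)))) δ₁ := by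
  have hp1 : (2 : ℝ) ≤ p := by exact_mod_cast hp
  have hq1 : (2 : ℝ) ≤ q := by exact_mod_cast hq
  obtain ⟨A, hA⟩ : ∃ A : ℝ, A = 2 * (1 + p) ^ 2 := ⟨_, rfl⟩
  have hA1 : 1 ≤ A := by rw [hA]; nlinarith
  obtain ⟨C, hC⟩ : ∃ C : ℝ, C = 2 ^ (1 + p) * A := ⟨_, rfl⟩
  have h2s : (1 : ℝ) ≤ 2 ^ (1 + p) := one_le_pow₀ (by norm_num)
  have hC1 : 1 ≤ C := by rw [hC]; nlinarith
  have hC3 : (2 : ℝ) ^ (1 + p) ≤ C := by rw [hC]; nlinarith
  obtain ⟨δ₁, hδ₁⟩ : ∃ δ₁ : ℝ, δ₁ = min (1 / 2) (δ / C ^ 2) := ⟨_, rfl⟩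
  have hδ₁0 : 0 < δ₁ := by rw [hδ₁]; exact lt_min (by positivity) (by positivity)
  have hδ₁1 : δ₁ ≤ 1 / 2 := by rw [hδ₁]; exact min_le_left _ _
  have hδ₁2 : δ₁ * C ^ 2 ≤ δ := by
    have : δ₁ ≤ δ / C ^ 2 := by rw [hδ₁]; exact min_le_right _ _
    rwa [le_div_iff₀ (by positivity)] at this
  refine ⟨δ₁, hδ₁0, ?_⟩
  refine oneCusp_transfer p q p (q * (p + 1)) _ N (1 + p) δ₁ δ C hC1 ?_ ?_ (by omega) h ?_
  · have h1 : 1 / (p : ℝ) ≤ 1 / 2 := one_div_le_one_div_of_le (by norm_num) hp1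
    have h2 : 1 / (((q * (p + 1) : ℕ) : ℝ)) ≤ 1 / 6 := by
      refine one_div_le_one_div_of_le (by norm_num) ?_
      push_cast
      nlinarith
    linarith
  · push_cast
    field_simp
    ring
  · intro x y hxy hne hdvd M hM1 hM hnear
    have hM0 : 0 < M := by linarith
    obtain ⟨W, hW⟩ : ∃ W : ℤ, W = y ^ q := ⟨_, rfl⟩
    obtain ⟨d₁, hd₁⟩ := hdvd
    obtain ⟨d, hd⟩ : ∃ d : ℤ, d = N * (2 * ((((1 : ℕ) : ℤ) + p) * ((1 : ℕ) : ℤ) * p)) * d₁ := ⟨_, rfl⟩
    have hF : x ^ p - y ^ q = p * d := by rw [hd₁, hd]; push_cast; ring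
    have hu : x ^ p = W + p * d := by rw [hW]; linarith
    have hd2 : (2 * ((((1 : ℕ) : ℤ) + p) * ((1 : ℕ) : ℤ) * p)) ∣ d := ⟨N * d₁, by rw [hd]; ring⟩
    have hdF : d ∣ x ^ p - y ^ q := by rw [hF]; exact Dvd.intro_left _ rfl
    have hF0 : x ^ p - y ^ q ≠ 0 := sub_ne_zero.2 hne
    have huW : IsCoprime (x ^ p) W := by rw [hW]; exact hxy.pow
    have hWd : IsCoprime W d := by
      have h1 : IsCoprime W (p * d) := by
        have h2 := huW.symm
        rw [hu] at h2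
        have h3 := h2.add_mul_left_right (-1)
        rwa [show W + ↑p * d + W * -1 = ↑p * d by ring] at h3
      exact h1.of_mul_right_right
    obtain ⟨G, hG⟩ : ∃ G : ℤ, G = GG 1 p (W - d) d := ⟨_, rfl⟩
    have hwd : IsCoprime (W - d) d := by
      have := hWd.add_mul_left_left (-1)
      rwa [show W + d * -1 = W - d by ring] at this
    have hG0 : G ≠ 0 := by rw [hG]; exact GG_ne_zero le_rfl (by omega) hwd hd2
    have hd0 : d ≠ 0 := by
      intro h0
      rw [h0, mul_zero] at hF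
      exact hF0 hF
    have hmain : (x * (W - d)) ^ p - y ^ (q * (p + 1)) = d ^ 2 * (-G) := by
      have h1 := GG_spec 1 p le_rfl (W - d) d
      rw [← hG] at h1
      have h2 : (x * (W - d)) ^ p = (W + p * d) * (W - d) ^ p := by rw [mul_pow, hu]
      have h3 : y ^ (q * (p + 1)) = W ^ (1 + p) := by rw [hW, ← pow_mul, add_comm]
      rw [h2, h3]
      push_cast at h1
      have e1 : W - d + 1 * d = W := by ring
      have e2 : W - d + (1 + (p : ℤ)) * d = W + p * d := by ring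
      rw [e1, e2, pow_one] at h1
      linear_combination -h1
    -- sizes
    have hWM : |(W : ℝ)| ≤ M := by
      rw [hW, hM]; push_cast; rw [abs_pow]; exact le_max_right _ _
    have huM : |(W : ℝ) + p * d| ≤ M := by
      have : (W : ℝ) + p * d = x ^ p := by exact_mod_cast hu.symm
      rw [this, hM, abs_pow]; exact le_max_left _ _
    have hpd : p * |(d : ℝ)| ≤ δ₁ * M := by
      have h1 : (x : ℝ) ^ p - (y : ℝ) ^ q = p * d := by exact_mod_cast hF
      rw [h1, abs_mul, abs_of_pos (by linarith)] at hnear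
      exact hnear
    have hdM : |(d : ℝ)| ≤ δ₁ * M := by
      have : 1 * |(d : ℝ)| ≤ p * |(d : ℝ)| := mul_le_mul_of_nonneg_right (by linarith) (abs_nonneg _)
      linarith
    have hδM : δ₁ * M ≤ M / 2 := by
      have := mul_le_mul_of_nonneg_right hδ₁1 hM0.le
      linarith
    have hWdM : |(W : ℝ) - d| ≤ 2 * M := by
      calc |(W : ℝ) - d| ≤ |(W : ℝ)| + |(d : ℝ)| := by
            have := abs_add_le (W : ℝ) (-d)
            rwa [abs_neg, ← sub_eq_add_neg] at this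
        _ ≤ _ := by linarith
    have hWlow : M / 2 ≤ |(W : ℝ)| := by
      rcases max_cases (|(x : ℝ)| ^ p) (|(y : ℝ)| ^ q) with ⟨h1, -⟩ | ⟨h1, -⟩
      · have h2 : M = |(W : ℝ) + p * d| := by
          rw [hM, h1, ← abs_pow]
          congr 1
          exact_mod_cast hu
        have h4 := abs_sub_abs_le_abs_sub ((W : ℝ) + p * d) (p * d)
        rw [← h2, abs_mul, abs_of_pos (by linarith : (0 : ℝ) < p), add_sub_cancel_right] at h4
        linarith
      · have h2 : M = |(W : ℝ)| := by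
          rw [hM, h1, ← abs_pow]
          congr 1
          exact_mod_cast hW.symm
        linarith
    have hGM : |(G : ℝ)| * M ^ 2 ≤ C * M ^ (1 + p) := by
      have hint : ∃ Mi : ℤ, (Mi : ℝ) = 2 * M := by
        rcases max_cases (|(x : ℝ)| ^ p) (|(y : ℝ)| ^ q) with ⟨h1, -⟩ | ⟨h1, -⟩
        · exact ⟨2 * |x| ^ p, by rw [hM, h1]; push_cast; rfl⟩
        · exact ⟨2 * |y| ^ q, by rw [hM, h1]; push_cast; rfl⟩
      obtain ⟨Mi, hMi⟩ := hint
      have h1 := GG_bound 1 p (W - d) d Mi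
        (by rw [← hMi] at hWdM; exact_mod_cast hWdM)
        (by
          have h2 : |(W : ℝ)| ≤ 2 * M := by linarith
          rw [← hMi] at h2
          have e : W - d + ((1 : ℕ) : ℤ) * d = W := by push_cast; ring
          rw [e]
          exact_mod_cast h2)
        (by
          have h2 : |(W : ℝ) + p * d| ≤ 2 * M := by linarith
          rw [← hMi] at h2
          have e : W - d + (((1 : ℕ) : ℤ) + p) * d = W + p * d := by push_cast; ring
          rw [e]
          exact_mod_cast h2)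
      rw [← hG] at h1
      have h2 : |(G : ℝ)| * (2 * M) ^ 2 ≤ A * (2 * M) ^ (1 + p) := by
        rw [← hMi, hA]
        have h3 : |(G : ℝ)| * (Mi : ℝ) ^ 2 ≤ 2 * ((1 : ℕ) : ℝ) ^ 2 * (((1 : ℕ) : ℝ) + p) ^ 2 *
            (Mi : ℝ) ^ (1 + p) := by exact_mod_cast h1
        push_cast at h3
        linarith
      have h4 : 0 ≤ |(G : ℝ)| * M ^ 2 := by positivity
      calc |(G : ℝ)| * M ^ 2 ≤ |(G : ℝ)| * (2 * M) ^ 2 := by rw [mul_pow]; nlinarith
        _ ≤ A * (2 * M) ^ (1 + p) := h2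
        _ = _ := by rw [hC, mul_pow]; ring
    have hMlow : M ^ (1 + p) ≤ 2 ^ (1 + p) * max (|((x * (W - d) : ℤ) : ℝ)| ^ p)
        (|(y : ℝ)| ^ (q * (p + 1))) := by
      have h3 : (M / 2) ^ (1 + p) ≤ |(y : ℝ)| ^ (q * (p + 1)) := by
        have e : |(y : ℝ)| ^ (q * (p + 1)) = |(W : ℝ)| ^ (1 + p) := by
          rw [hW, pow_mul, add_comm]; push_cast; rw [abs_pow]
        rw [e]
        exact pow_le_pow_left₀ (by positivity) hWlow _
      rw [div_pow, div_le_iff₀ (by positivity)] at h3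
      calc M ^ (1 + p) ≤ |(y : ℝ)| ^ (q * (p + 1)) * 2 ^ (1 + p) := h3
        _ ≤ _ := by rw [mul_comm]; exact mul_le_mul_of_nonneg_left (le_max_right _ _) (by positivity)
    refine ⟨x * (W - d), y, ?_, ?_, ?_, ?_, ?_, ?_⟩
    · have h2 : IsCoprime (W - d) y := by
        have h3 : IsCoprime (-d + W * 1) W := (hWd.symm.neg_left.add_mul_left_left 1)
        rw [mul_one, show -d + W = W - d by ring] at h3
        nth_rewrite 2 [hW] at h3
        exact (IsCoprime.pow_right_iff (by omega)).1 h3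
      exact hxy.mul_left h2
    · intro h1
      rw [h1, sub_self] at hmain
      exact mul_ne_zero (pow_ne_zero 2 hd0) (neg_ne_zero.2 hG0) hmain.symm
    · rw [hmain]
      have h1 : (N : ℤ) ∣ d := ⟨2 * ((((1 : ℕ) : ℤ) + p) * ((1 : ℕ) : ℤ) * p) * d₁, by rw [hd]; ring⟩
      exact (h1.trans (dvd_pow_self d (by norm_num))).mul_right _
    · have h1 : ((x * (W - d) : ℤ) : ℝ) ^ p - (y : ℝ) ^ (q * (p + 1)) = d ^ 2 * (-G) := by
        exact_mod_cast hmain
      rw [h1, abs_mul, abs_pow, abs_neg]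
      obtain ⟨M', hM'⟩ : ∃ M' : ℝ, M' = max (|((x * (W - d) : ℤ) : ℝ)| ^ p)
        (|(y : ℝ)| ^ (q * (p + 1))) := ⟨_, rfl⟩
      rw [← hM'] at hMlow ⊢
      have hM'0 : 0 ≤ M' := by rw [hM']; positivity
      calc |(d : ℝ)| ^ 2 * |(G : ℝ)| ≤ (δ₁ * M) ^ 2 * |(G : ℝ)| :=
            mul_le_mul_of_nonneg_right (pow_le_pow_left₀ (abs_nonneg _) hdM 2) (abs_nonneg _)
        _ = δ₁ ^ 2 * (|(G : ℝ)| * M ^ 2) := by ring
        _ ≤ δ₁ ^ 2 * (C * M ^ (1 + p)) := mul_le_mul_of_nonneg_left hGM (by positivity)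
        _ ≤ δ₁ ^ 2 * (C * (C * M')) := by
            apply mul_le_mul_of_nonneg_left _ (by positivity)
            apply mul_le_mul_of_nonneg_left _ (by linarith)
            exact hMlow.trans (mul_le_mul_of_nonneg_right hC3 hM'0)
        _ = (δ₁ * (δ₁ * C ^ 2)) * M' := by ring
        _ ≤ (1 * δ) * M' := by
            apply mul_le_mul_of_nonneg_right _ hM'0
            exact mul_le_mul (by linarith) hδ₁2 (by positivity) zero_le_one
        _ = _ := by rw [one_mul]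
    · exact hMlow.trans (mul_le_mul_of_nonneg_right hC3 (by positivity))
    · rw [hmain]
      have h1 := R_sq_mul hF0 (neg_ne_zero.2 hG0) hdF
      push_cast at h1
      rw [abs_neg] at h1
      have hR0 : (0 : ℝ) ≤ R (x ^ p - y ^ q).natAbs := Nat.cast_nonneg _
      calc (R (d ^ 2 * (-G)).natAbs : ℝ) * M ^ 2 ≤ (R (x ^ p - y ^ q).natAbs * |(G : ℝ)|) * M ^ 2 :=
            mul_le_mul_of_nonneg_right h1 (by positivity)
        _ = R (x ^ p - y ^ q).natAbs * (|(G : ℝ)| * M ^ 2) := by ring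
        _ ≤ R (x ^ p - y ^ q).natAbs * (C * M ^ (1 + p)) := mul_le_mul_of_nonneg_left hGM hR0
        _ = _ := by ring

end Pool.Agent.N757.OC
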