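import Mathlib
import Pool.Agent.N757.OC.Fwd

/-!
# Radical inequalities with one cusp: power maps on the norm one tori of `ℚ(√-3)` and `ℚ(i)`
-/

namespace Pool.Agent.N757.OC

open Filter Topology

/-- powers of `S + T √-3` -/
theorem eisen (S T B : ℤ) (hB0 : 0 ≤ B) (hB : S ^ 2 + 3 * T ^ 2 ≤ B ^ 2) (j : ℕ) :
    ∃ P G : ℤ, P ^ 2 + 3 * (T * G) ^ 2 = (S ^ 2 + 3 * T ^ 2) ^ (j + 1) ∧
      (S ^ 2 + 3 * T ^ 2) ∣ P - 2 ^ j * S ^ (j + 1) ∧
      (S ^ 2 + 3 * T ^ 2) ∣ T * G - 2 ^ j * S ^ j * T ∧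
      |P| ≤ B ^ (j + 1) ∧ |G| ≤ (j + 1) * B ^ j := by
  have hS : |S| ≤ B := abs_le_of_sq_le_sq (by nlinarith [sq_nonneg T]) hB0
  induction j with
  | zero =>
    refine ⟨S, 1, by ring, by simp, by simp, by simpa using hS, by simp⟩
  | succ j ih =>
    obtain ⟨P, G, h1, ⟨r₁, h2⟩, ⟨r₂, h3⟩, h4, h5⟩ := ih
    have e1 : (S * P - 3 * T * (T * G)) ^ 2 + 3 * (T * (S * G + P)) ^ 2 =
        (S ^ 2 + 3 * T ^ 2) ^ (j + 1 + 1) := by
      rw [pow_succ (S ^ 2 + 3 * T ^ 2) (j + 1), ← h1]; ring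
    refine ⟨S * P - 3 * T * (T * G), S * G + P, e1, ?_, ?_, ?_, ?_⟩
    · refine ⟨S * r₁ - 3 * T * r₂ - 2 ^ j * S ^ j, ?_⟩
      have hP : P = 2 ^ j * S ^ (j + 1) + (S ^ 2 + 3 * T ^ 2) * r₁ := by linarith
      have hQ : T * G = 2 ^ j * S ^ j * T + (S ^ 2 + 3 * T ^ 2) * r₂ := by linarith
      rw [hP, hQ]; ring
    · refine ⟨S * r₂ + T * r₁, ?_⟩
      have hP : P = 2 ^ j * S ^ (j + 1) + (S ^ 2 + 3 * T ^ 2) * r₁ := by linarith
      have hQ : T * G = 2 ^ j * S ^ j * T + (S ^ 2 + 3 * T ^ 2) * r₂ := by linarith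
      have : T * (S * G + P) = S * (T * G) + T * P := by ring
      rw [this, hP, hQ]; ring
    · apply abs_le_of_sq_le_sq _ (by positivity)
      calc (S * P - 3 * T * (T * G)) ^ 2 ≤ (S * P - 3 * T * (T * G)) ^ 2 +
            3 * (T * (S * G + P)) ^ 2 := by nlinarith [sq_nonneg (T * (S * G + P))]
        _ = (S ^ 2 + 3 * T ^ 2) ^ (j + 1 + 1) := e1
        _ ≤ (B ^ 2) ^ (j + 1 + 1) := pow_le_pow_left₀ (by positivity) hB _
        _ = _ := by rw [← pow_mul, ← pow_mul, mul_comm]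
    · calc |S * G + P| ≤ |S * G| + |P| := abs_add_le _ _
        _ = |S| * |G| + |P| := by rw [abs_mul]
        _ ≤ B * ((j + 1) * B ^ j) + B ^ (j + 1) :=
            add_le_add (mul_le_mul hS h5 (abs_nonneg _) hB0) h4
        _ = _ := by push_cast; ring

theorem oneCusp_three_abc (k : ℕ) (hk : 1 ≤ k) (N : ℕ) (hN : 1 ≤ N) (δ : ℝ) (hδ : 0 < δ)
    (h : OneCusp (3 * k) 2 N δ) : ABC := by
  obtain ⟨j, rfl⟩ : ∃ j, k = j + 1 := ⟨k - 1, by omega⟩
  set A : ℝ := ((j : ℝ) + 1) * 8 ^ j with hA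
  have hA1 : 1 ≤ A := by
    have h1 : (1 : ℝ) ≤ (j : ℝ) + 1 := by have : (0 : ℝ) ≤ j := Nat.cast_nonneg j
                                          linarith
    have h2 : (1 : ℝ) ≤ 8 ^ j := one_le_pow₀ (by norm_num)
    rw [hA]; nlinarith
  set B₀ : ℝ := 4 ^ (3 * (j + 1)) with hB₀
  have hB₀1 : 1 ≤ B₀ := one_le_pow₀ (by norm_num)
  set δ' : ℝ := min (1 / 2) (δ / (12 * A ^ 2 * B₀)) with hδ'
  have hδ'0 : 0 < δ' := lt_min (by norm_num) (by positivity)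
  have hδ'4 : δ' ≤ 1 / 2 := min_le_left _ _
  have hδ'δ : δ' ≤ δ / (12 * A ^ 2 * B₀) := min_le_right _ _
  refine bridge (12 * N) δ' (by omega) hδ'0 (1 - 1 / ((3 * (j + 1) : ℕ) : ℝ) - 1 / ((2 : ℕ) : ℝ))
    (6 * (j + 1)) (3 * j) (by omega) ?_ (B₀ + 3 * A) (by linarith) ?_
  · push_cast
    have : ((j : ℝ) + 1) ≠ 0 := by positivity
    field_simp
    ring
  intro ε hε
  obtain ⟨κ, hκ0, hκ⟩ := h ε hε
  refine ⟨κ, hκ0, ?_⟩
  intro a b c ha hb hab habc hdvd hac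
  obtain ⟨a₁, ha₁⟩ := hdvd
  set t : ℤ := 6 * N * a₁ with ht
  have hat : (a : ℤ) = 2 * t := by rw [ha₁, ht]; push_cast; ring
  have hcb : (c : ℤ) = b + a := by rw [← habc]; push_cast; ring
  set s : ℤ := b + t with hs
  have ha0 : (0 : ℤ) < a := by exact_mod_cast ha
  have hb0 : (0 : ℤ) < b := by exact_mod_cast hb
  have hc0' : (0 : ℤ) < c := by linarith
  have ht0 : 0 < t := by linarith
  have hs0 : 0 < s := by linarith
  have hsc : s ≤ c := by rw [hs, hcb]; linarith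
  have h2tc : 2 * t ≤ c := by rw [hcb]; linarith
  set Y : ℤ := s ^ 2 + 3 * t ^ 2 with hY
  set S : ℤ := s ^ 3 - 9 * s * t ^ 2 with hS
  set T : ℤ := 3 * t * b * c with hT
  have hTst : T = 3 * t * (s - t) * (s + t) := by rw [hT, hcb, hs, hat]; ring
  have hST : S ^ 2 + 3 * T ^ 2 = Y ^ 3 := by rw [hTst, hS, hY]; ring
  have hY0 : 0 < Y := by positivity
  have hYc : Y ≤ (2 * c) ^ 2 := by rw [hY]; nlinarith
  have hB : S ^ 2 + 3 * T ^ 2 ≤ ((2 * (c : ℤ)) ^ 3) ^ 2 := by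
    rw [hST]
    calc Y ^ 3 ≤ ((2 * (c : ℤ)) ^ 2) ^ 3 := pow_le_pow_left₀ hY0.le hYc 3
      _ = _ := by ring
  obtain ⟨P, G, h1, h2, h3, h4, h5⟩ := eisen S T ((2 * (c : ℤ)) ^ 3) (by positivity) hB j
  rw [hST] at h1 h2 h3
  -- coprimality
  have habZ : IsCoprime (a : ℤ) (b : ℤ) := Nat.isCoprime_iff_coprime.2 hab
  have htb : IsCoprime t (b : ℤ) := habZ.of_isCoprime_of_dvd_left ⟨2, by rw [hat]; ring⟩
  have h2b : IsCoprime (2 : ℤ) (b : ℤ) := habZ.of_isCoprime_of_dvd_left ⟨t, hat⟩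
  have h3b : IsCoprime (3 : ℤ) (b : ℤ) := htb.of_isCoprime_of_dvd_left ⟨2 * N * a₁, by rw [ht]; ring⟩
  have h2t : (2 : ℤ) ∣ t := ⟨3 * N * a₁, by rw [ht]; ring⟩
  have h3t : (3 : ℤ) ∣ t := ⟨2 * N * a₁, by rw [ht]; ring⟩
  have hts : IsCoprime t s := by
    have := htb.add_mul_left_right 1
    rwa [mul_one, ← hs] at this
  have h3s : IsCoprime (3 : ℤ) s := hts.of_isCoprime_of_dvd_left h3t
  have h2s : IsCoprime (2 : ℤ) s := hts.of_isCoprime_of_dvd_left h2t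
  have hsY : IsCoprime s Y := by
    have h6 : IsCoprime s (3 * t ^ 2) := h3s.symm.mul_right hts.symm.pow_right
    have := h6.add_mul_left_right s
    rwa [show 3 * t ^ 2 + s * s = Y by rw [hY]; ring] at this
  have h2Y : IsCoprime (2 : ℤ) Y := by
    obtain ⟨t₁, ht₁⟩ := h2t
    have h6 : IsCoprime (2 : ℤ) (s ^ 2) := h2s.pow_right
    have := h6.add_mul_left_right (3 * t * t₁)
    rwa [show s ^ 2 + 2 * (3 * t * t₁) = Y by rw [hY]; nth_rewrite 3 [pow_two]; nth_rewrite 2 [ht₁]; ring]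
      at this
  have hSY : IsCoprime S Y := by
    have h6 : IsCoprime (2 ^ 2 * s ^ 3) Y := h2Y.pow_left.mul_left hsY.pow_left
    have := h6.add_mul_right_left (-3 * s)
    rwa [show 2 ^ 2 * s ^ 3 + -3 * s * Y = S by rw [hS, hY]; ring] at this
  have hPY : IsCoprime P Y := by
    obtain ⟨r, hr⟩ := h2
    have h6 : IsCoprime (2 ^ j * S ^ (j + 1)) Y := h2Y.pow_left.mul_left hSY.pow_left
    have := h6.add_mul_right_left (Y ^ 2 * r)
    rwa [show 2 ^ j * S ^ (j + 1) + Y ^ 2 * r * Y = P by linear_combination -hr] at this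
  have hF : Y ^ (3 * (j + 1)) - P ^ 2 = 3 * (T * G) ^ 2 := by
    rw [pow_mul, ← h1]; ring
  have hY1 : 1 < Y := by rw [hY]; nlinarith
  have hQ0 : T * G ≠ 0 := by
    intro h0
    rw [h0] at h1
    have h6 : P ^ 2 = (Y ^ 3) ^ (j + 1) := by rw [← h1]; ring
    have h7 : IsCoprime (P ^ 2) Y := hPY.pow_left
    rw [h6] at h7
    have h8 : IsCoprime Y Y := h7.of_isCoprime_of_dvd_left
      ((dvd_pow_self Y (by norm_num)).trans (dvd_pow_self _ (by omega)))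
    rw [isCoprime_self, Int.isUnit_iff] at h8
    omega
  have hG0 : G ≠ 0 := right_ne_zero_of_mul hQ0
  have hne : Y ^ (3 * (j + 1)) ≠ P ^ 2 := by
    intro h6
    rw [h6, sub_self] at hF
    have : (3 : ℤ) * (T * G) ^ 2 ≠ 0 := mul_ne_zero (by norm_num) (pow_ne_zero _ hQ0)
    exact this hF.symm
  -- real estimates
  have hcR0 : (0 : ℝ) < c := by exact_mod_cast hc0'
  have hYR : (c : ℝ) ^ 2 ≤ 4 * Y := by
    have h6 : (b : ℝ) + a = c := by exact_mod_cast hcb.symm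
    have h7 : (a : ℝ) ≤ 1 / 2 * c := hac.trans (mul_le_mul_of_nonneg_right hδ'4 hcR0.le)
    have h8 : (c : ℝ) ≤ 2 * s := by
      have : (s : ℝ) = b + t := by rw [hs]; push_cast; ring
      have ht' : (0 : ℝ) < t := by exact_mod_cast ht0
      rw [this]; linarith
    have h9 : (Y : ℝ) = (s : ℝ) ^ 2 + 3 * (t : ℝ) ^ 2 := by rw [hY]; push_cast; ring
    rw [h9]
    nlinarith [sq_nonneg (t : ℝ)]
  have hYpos : (0 : ℝ) < Y := by exact_mod_cast hY0
  have hM : (Y : ℝ) ^ (3 * (j + 1)) ≤ max (|(Y : ℝ)| ^ (3 * (j + 1))) (|(P : ℝ)| ^ 2) := by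
    refine le_trans ?_ (le_max_left _ _)
    rw [abs_of_pos hYpos]
  have hcY : (c : ℝ) ^ (6 * (j + 1)) ≤ B₀ * (Y : ℝ) ^ (3 * (j + 1)) := by
    calc (c : ℝ) ^ (6 * (j + 1)) = ((c : ℝ) ^ 2) ^ (3 * (j + 1)) := by rw [← pow_mul]; ring_nf
      _ ≤ (4 * (Y : ℝ)) ^ (3 * (j + 1)) := pow_le_pow_left₀ (by positivity) hYR _
      _ = _ := by rw [mul_pow]
  have hGR : |(G : ℝ)| ≤ A * (c : ℝ) ^ (3 * j) := by
    have h6 : (|G| : ℝ) ≤ (j + 1) * ((2 * (c : ℝ)) ^ 3) ^ j := by exact_mod_cast h5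
    calc |(G : ℝ)| ≤ (j + 1) * ((2 * (c : ℝ)) ^ 3) ^ j := h6
      _ = _ := by rw [mul_pow, mul_pow, ← pow_mul (c : ℝ), hA]; norm_num; ring
  have hTR : |(T : ℝ)| ≤ 2 * δ' * (c : ℝ) ^ 3 := by
    have h6 : (T : ℝ) = 3 * t * b * c := by rw [hT]; push_cast; ring
    have h7 : (a : ℝ) = 2 * t := by exact_mod_cast hat
    have h8 : (b : ℝ) ≤ c := by exact_mod_cast (by omega : b ≤ c)
    have ht' : (0 : ℝ) < t := by exact_mod_cast ht0
    have h9 : 3 * (t : ℝ) ≤ 2 * δ' * c := by linarith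
    rw [h6, abs_of_pos (by positivity)]
    calc 3 * (t : ℝ) * b * c ≤ (2 * δ' * c) * c * c := by
          apply mul_le_mul_of_nonneg_right _ hcR0.le
          exact mul_le_mul h9 h8 (by positivity) (by positivity)
      _ = _ := by ring
  refine ⟨max (|(Y : ℝ)| ^ (3 * (j + 1))) (|(P : ℝ)| ^ 2), R (3 * (T * G) ^ 2).natAbs, ?_, ?_, ?_⟩
  · calc (c : ℝ) ^ (6 * (j + 1)) ≤ B₀ * (Y : ℝ) ^ (3 * (j + 1)) := hcY
      _ ≤ (B₀ + 3 * A) * max (|(Y : ℝ)| ^ (3 * (j + 1))) (|(P : ℝ)| ^ 2) :=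
          mul_le_mul (by linarith) hM (by positivity) (by positivity)
  · have h6 := hκ Y P hPY.symm hne (by
      rw [hF]
      have h7 : (N : ℤ) ∣ T := ⟨18 * a₁ * b * c, by rw [hT, ht]; ring⟩
      exact ((h7.mul_right G).trans (dvd_pow_self _ (by norm_num))).mul_left 3) (by
      have h7 : (Y : ℝ) ^ (3 * (j + 1)) - (P : ℝ) ^ 2 = 3 * ((T : ℝ) * G) ^ 2 := by exact_mod_cast hF
      rw [h7, abs_of_nonneg (by positivity), ← sq_abs, abs_mul]
      have h8 : |(T : ℝ)| * |(G : ℝ)| ≤ (2 * δ' * (c : ℝ) ^ 3) * (A * (c : ℝ) ^ (3 * j)) :=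
        mul_le_mul hTR hGR (abs_nonneg _) (by positivity)
      calc 3 * (|(T : ℝ)| * |(G : ℝ)|) ^ 2 ≤
          3 * ((2 * δ' * (c : ℝ) ^ 3) * (A * (c : ℝ) ^ (3 * j))) ^ 2 :=
            mul_le_mul_of_nonneg_left (pow_le_pow_left₀ (by positivity) h8 2) (by norm_num)
        _ = (12 * A ^ 2 * δ' * (c : ℝ) ^ (6 * (j + 1))) * δ' := by ring
        _ ≤ (12 * A ^ 2 * δ' * (c : ℝ) ^ (6 * (j + 1))) * 1 :=
            mul_le_mul_of_nonneg_left (by linarith) (by positivity)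
        _ = (12 * A ^ 2) * δ' * (c : ℝ) ^ (6 * (j + 1)) := by ring
        _ ≤ (12 * A ^ 2) * (δ / (12 * A ^ 2 * B₀)) * (B₀ * (Y : ℝ) ^ (3 * (j + 1))) :=
            mul_le_mul (mul_le_mul_of_nonneg_left hδ'δ (by positivity)) hcY (by positivity)
              (by positivity)
        _ = δ * (Y : ℝ) ^ (3 * (j + 1)) := by field_simp
        _ ≤ _ := mul_le_mul_of_nonneg_left hM hδ.le)
    rw [hF] at h6
    exact h6
  · have habc0 : a * b * c ≠ 0 := by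
      have : 0 < c := by omega
      positivity
    have hGn : G.natAbs ≠ 0 := Int.natAbs_ne_zero.2 hG0
    have h6 : R (3 * (T * G) ^ 2).natAbs ≤ R (a * b * c) * (3 * G.natAbs) := by
      apply R_bound habc0 (mul_ne_zero (by omega) hGn)
      intro ℓ hℓ hd
      rw [Int.natAbs_mul, Int.natAbs_pow, Int.natAbs_mul] at hd
      rcases (Nat.Prime.dvd_mul hℓ).1 hd with h | h
      · exact (h.mul_right _).mul_left _
      · have h := hℓ.dvd_of_dvd_pow h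
        rcases (Nat.Prime.dvd_mul hℓ).1 h with h | h
        · have h7 : T ∣ 3 * (a * b * c) := ⟨2, by rw [hT, hat]; ring⟩
          have h8 : T.natAbs ∣ 3 * (a * b * c) := by
            have := Int.natAbs_dvd_natAbs.2 h7
            rwa [show (3 * ((a : ℤ) * b * c)).natAbs = 3 * (a * b * c) by
              rw [show (3 * ((a : ℤ) * b * c)) = ((3 * (a * b * c) : ℕ) : ℤ) by push_cast; ring,
                Int.natAbs_natCast]] at this
          have h9 := h.trans h8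
          rcases (Nat.Prime.dvd_mul hℓ).1 h9 with h | h
          · exact (h.mul_right _).mul_left _
          · exact h.mul_right _
        · exact (h.mul_left _).mul_left _
    have hR : (1 : ℝ) ≤ R (a * b * c) := by exact_mod_cast R_pos _
    have e6 : (G.natAbs : ℝ) = |(G : ℝ)| := by rw [Nat.cast_natAbs, Int.cast_abs]
    calc (R (3 * (T * G) ^ 2).natAbs : ℝ) ≤ R (a * b * c) * (3 * |(G : ℝ)|) := by
          rw [← e6]; exact_mod_cast h6
      _ ≤ R (a * b * c) * (3 * (A * (c : ℝ) ^ (3 * j))) :=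
          mul_le_mul_of_nonneg_left (mul_le_mul_of_nonneg_left hGR (by norm_num)) (by linarith)
      _ = (3 * A) * R (a * b * c) * (c : ℝ) ^ (3 * j) := by ring
      _ ≤ (B₀ + 3 * A) * R (a * b * c) * (c : ℝ) ^ (3 * j) := by
          apply mul_le_mul_of_nonneg_right _ (by positivity)
          apply mul_le_mul_of_nonneg_right _ (by linarith)
          linarith

end Pool.Agent.N757.OC
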