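import Mathlib
import Pool.Agent.N757.OC.Fwd

/-!
# Radical inequalities with one cusp: `x ^ 3 - y ^ 3` and `x ^ 4 - y ^ 4`
-/

namespace Pool.Agent.N757.OC

open Filter Topology

theorem oneCusp_cubes_abc (N : ℕ) (hN : 1 ≤ N) (δ : ℝ) (hδ : 0 < δ) (h : OneCusp 3 3 N δ) : ABC := by
  set δ' : ℝ := min (1 / 4) (δ / (27 * 512)) with hδ'
  have hδ'0 : 0 < δ' := lt_min (by norm_num) (by positivity)
  have hδ'4 : δ' ≤ 1 / 4 := min_le_left _ _
  have hδ'δ : δ' ≤ δ / (27 * 512) := min_le_right _ _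
  refine bridge (3 * N) δ' (by omega) hδ'0 (1 - 1 / ((3 : ℕ) : ℝ) - 1 / ((3 : ℕ) : ℝ)) 9 2 (by norm_num)
    (by norm_num) 512 (by norm_num) ?_
  intro ε hε
  obtain ⟨κ, hκ0, hκ⟩ := h ε hε
  refine ⟨κ, hκ0, ?_⟩
  intro a b c ha hb hab habc hdvd hac
  obtain ⟨a₁, ha₁⟩ := hdvd
  have hcb : (c : ℤ) = a + b := by rw [← habc]; push_cast; ring
  have ha0 : (0 : ℤ) < a := by exact_mod_cast ha
  have hb0 : (0 : ℤ) < b := by exact_mod_cast hb
  have hc0' : (0 : ℤ) < c := by linarith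
  set q : ℤ := (a : ℤ) ^ 2 + a * b + (b : ℤ) ^ 2 with hq
  have hq0 : 0 < q := by positivity
  set X : ℤ := (b : ℤ) ^ 3 + 6 * a * b ^ 2 + 3 * a ^ 2 * b - a ^ 3 with hX
  set Y : ℤ := (b : ℤ) ^ 3 - 3 * a * b ^ 2 - 6 * a ^ 2 * b - a ^ 3 with hY
  have hF : X ^ 3 - Y ^ 3 = 27 * (a * b * c) * q ^ 3 := by rw [hX, hY, hq, hcb]; ring
  have habZ : IsCoprime (a : ℤ) (b : ℤ) := Nat.isCoprime_iff_coprime.2 hab
  have hca : IsCoprime (c : ℤ) (a : ℤ) := by
    rw [hcb]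
    have := habZ.symm.add_mul_right_left 1
    rwa [one_mul, add_comm] at this
  have h3a : (3 : ℤ) ∣ a := ⟨N * a₁, by rw [ha₁]; push_cast; ring⟩
  -- coprimality
  have haX : IsCoprime (a : ℤ) X := by
    have h1 : IsCoprime (a : ℤ) ((b : ℤ) ^ 3) := habZ.pow_right
    have := h1.add_mul_left_right (6 * b ^ 2 + 3 * a * b - a ^ 2)
    rwa [show (b : ℤ) ^ 3 + a * (6 * b ^ 2 + 3 * a * b - a ^ 2) = X by rw [hX]; ring] at this
  have h3X : IsCoprime (3 : ℤ) X := haX.of_isCoprime_of_dvd_left h3a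
  have hbX : IsCoprime (b : ℤ) X := by
    have h1 : IsCoprime (b : ℤ) (-(a : ℤ) ^ 3) := habZ.symm.pow_right.neg_right
    have := h1.add_mul_left_right (b ^ 2 + 6 * a * b + 3 * a ^ 2)
    rwa [show -(a : ℤ) ^ 3 + b * (b ^ 2 + 6 * a * b + 3 * a ^ 2) = X by rw [hX]; ring] at this
  have hcX : IsCoprime (c : ℤ) X := by
    have h1 : IsCoprime (c : ℤ) ((a : ℤ) ^ 3) := hca.pow_right
    have := h1.add_mul_left_right (b ^ 2 + 5 * a * b - 2 * a ^ 2)
    rwa [show (a : ℤ) ^ 3 + c * (b ^ 2 + 5 * a * b - 2 * a ^ 2) = X by rw [hX, hcb]; ring] at this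
  have hXY : IsCoprime X Y := by
    have h1 : IsCoprime (3 ^ 2 * (a * b * c) : ℤ) X :=
      h3X.pow_left.mul_left ((haX.mul_left hbX).mul_left hcX)
    have h2 := h1.symm.neg_right.add_mul_left_right 1
    rwa [show -(3 ^ 2 * (a * b * c) : ℤ) + X * 1 = Y by rw [hX, hY, hcb]; ring] at h2
  have habcZ : (0 : ℤ) < a * b * c := by positivity
  have hne : X ^ 3 ≠ Y ^ 3 := by
    intro h1
    rw [h1, sub_self] at hF
    have : (0 : ℤ) < 27 * (a * b * c) * q ^ 3 := by positivity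
    omega
  -- real estimates
  have hcR0 : (0 : ℝ) < c := by exact_mod_cast hc0'
  have hsum : (a : ℝ) + b = c := by exact_mod_cast hcb.symm
  have haR0 : (0 : ℝ) < a := by exact_mod_cast ha0
  have hbR0 : (0 : ℝ) < b := by exact_mod_cast hb0
  have hXR : (c : ℝ) ^ 3 ≤ 8 * X := by
    have h7 : (a : ℝ) ≤ 1 / 4 * c := hac.trans (mul_le_mul_of_nonneg_right hδ'4 hcR0.le)
    have h8 : (X : ℝ) = (b : ℝ) ^ 3 + 6 * a * b ^ 2 + 3 * a ^ 2 * b - a ^ 3 := by rw [hX]; push_cast; ring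
    have h9 : 3 / 4 * (c : ℝ) ≤ b := by linarith
    have h10 : (3 / 4 * (c : ℝ)) ^ 3 ≤ (b : ℝ) ^ 3 := pow_le_pow_left₀ (by positivity) h9 3
    have h11 : (a : ℝ) ^ 3 ≤ (1 / 4 * c) ^ 3 := pow_le_pow_left₀ haR0.le h7 3
    have h12 : (0 : ℝ) ≤ 6 * a * b ^ 2 + 3 * a ^ 2 * b := by positivity
    have h13 : (0 : ℝ) < (c : ℝ) ^ 3 := by positivity
    rw [h8]
    nlinarith
  have hX0 : (0 : ℝ) < X := by
    have : (0 : ℝ) < (c : ℝ) ^ 3 := by positivity
    linarith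
  have hM : (X : ℝ) ^ 3 ≤ max (|(X : ℝ)| ^ 3) (|(Y : ℝ)| ^ 3) := by
    refine le_trans ?_ (le_max_left _ _)
    rw [abs_of_pos hX0]
  have hcX : (c : ℝ) ^ 9 ≤ 512 * (X : ℝ) ^ 3 := by
    calc (c : ℝ) ^ 9 = ((c : ℝ) ^ 3) ^ 3 := by ring
      _ ≤ (8 * (X : ℝ)) ^ 3 := pow_le_pow_left₀ (by positivity) hXR 3
      _ = _ := by ring
  have hqc : (q : ℝ) ≤ (c : ℝ) ^ 2 := by
    have h7 : (q : ℝ) = (a : ℝ) ^ 2 + a * b + (b : ℝ) ^ 2 := by rw [hq]; push_cast; ring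
    rw [h7, ← hsum]
    nlinarith [mul_pos haR0 hbR0]
  have hqR0 : (0 : ℝ) < q := by exact_mod_cast hq0
  refine ⟨max (|(X : ℝ)| ^ 3) (|(Y : ℝ)| ^ 3), R (27 * (a * b * c) * q ^ 3).natAbs, ?_, ?_, ?_⟩
  · exact hcX.trans (mul_le_mul_of_nonneg_left hM (by norm_num))
  · have h6 := hκ X Y hXY hne (by
      rw [hF]
      exact ⟨81 * a₁ * b * c * q ^ 3, by rw [ha₁]; push_cast; ring⟩) (by
      have h7 : (X : ℝ) ^ 3 - (Y : ℝ) ^ 3 = 27 * (a * b * c) * (q : ℝ) ^ 3 := by exact_mod_cast hF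
      rw [h7, abs_of_pos (by positivity)]
      have h8 : (a : ℝ) * b * c ≤ (δ' * c) * c * c :=
        mul_le_mul_of_nonneg_right (mul_le_mul hac (by linarith) hbR0.le (by positivity)) hcR0.le
      have h9 : (q : ℝ) ^ 3 ≤ ((c : ℝ) ^ 2) ^ 3 := pow_le_pow_left₀ hqR0.le hqc 3
      calc 27 * ((a : ℝ) * b * c) * (q : ℝ) ^ 3 ≤ 27 * ((δ' * c) * c * c) * ((c : ℝ) ^ 2) ^ 3 :=
            mul_le_mul (mul_le_mul_of_nonneg_left h8 (by norm_num)) h9 (by positivity) (by positivity)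
        _ = 27 * δ' * (c : ℝ) ^ 9 := by ring
        _ ≤ 27 * (δ / (27 * 512)) * (512 * (X : ℝ) ^ 3) :=
            mul_le_mul (mul_le_mul_of_nonneg_left hδ'δ (by norm_num)) hcX (by positivity) (by positivity)
        _ = δ * (X : ℝ) ^ 3 := by ring
        _ ≤ _ := mul_le_mul_of_nonneg_left hM hδ.le)
    rw [hF] at h6
    exact h6
  · have habc0 : a * b * c ≠ 0 := by
      have : 0 < c := by omega
      positivity
    have hqn : q.natAbs ≠ 0 := Int.natAbs_ne_zero.2 hq0.ne'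
    have h6 : R (27 * (a * b * c) * q ^ 3).natAbs ≤ R (a * b * c) * (3 * q.natAbs) := by
      apply R_bound habc0 (mul_ne_zero (by omega) hqn)
      intro ℓ hℓ hd
      have e1 : (27 * (a * b * c) * q ^ 3).natAbs = 3 ^ 3 * (a * b * c) * q.natAbs ^ 3 := by
        rw [Int.natAbs_mul, Int.natAbs_pow, show (27 * ((a : ℤ) * b * c)) =
          ((3 ^ 3 * (a * b * c) : ℕ) : ℤ) by push_cast; ring, Int.natAbs_natCast]
      rw [e1] at hd
      rcases (Nat.Prime.dvd_mul hℓ).1 hd with h | h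
      · rcases (Nat.Prime.dvd_mul hℓ).1 h with h | h
        · exact ((hℓ.dvd_of_dvd_pow h).mul_right _).mul_left _
        · exact h.mul_right _
      · exact ((hℓ.dvd_of_dvd_pow h).mul_left _).mul_left _
    have hR : (1 : ℝ) ≤ R (a * b * c) := by exact_mod_cast R_pos _
    have e6 : (q.natAbs : ℝ) = q := by rw [Nat.cast_natAbs, abs_of_pos hq0]
    calc (R (27 * (a * b * c) * q ^ 3).natAbs : ℝ) ≤ R (a * b * c) * (3 * q) := by
          rw [← e6]; exact_mod_cast h6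
      _ ≤ R (a * b * c) * (3 * (c : ℝ) ^ 2) :=
          mul_le_mul_of_nonneg_left (mul_le_mul_of_nonneg_left hqc (by norm_num)) (by linarith)
      _ = 3 * (R (a * b * c) * (c : ℝ) ^ 2) := by ring
      _ ≤ 512 * (R (a * b * c) * (c : ℝ) ^ 2) :=
          mul_le_mul_of_nonneg_right (by norm_num) (by positivity)
      _ = 512 * R (a * b * c) * (c : ℝ) ^ 2 := by ring

theorem oneCusp_fourth_abc (N : ℕ) (hN : 1 ≤ N) (δ : ℝ) (hδ : 0 < δ) (h : OneCusp 4 4 N δ) : ABC := by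
  set δ' : ℝ := min (1 / 8) (δ / (32 * 65536)) with hδ'
  have hδ'0 : 0 < δ' := lt_min (by norm_num) (by positivity)
  have hδ'4 : δ' ≤ 1 / 8 := min_le_left _ _
  have hδ'δ : δ' ≤ δ / (32 * 65536) := min_le_right _ _
  refine bridge (2 * N) δ' (by omega) hδ'0 (1 - 1 / ((4 : ℕ) : ℝ) - 1 / ((4 : ℕ) : ℝ)) 16 7 (by norm_num)
    (by norm_num) 65536 (by norm_num) ?_
  intro ε hε
  obtain ⟨κ, hκ0, hκ⟩ := h ε hε
  refine ⟨κ, hκ0, ?_⟩
  intro a b c ha hb hab habc hdvd hac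
  obtain ⟨a₁, ha₁⟩ := hdvd
  have hcb : (c : ℤ) = a + b := by rw [← habc]; push_cast; ring
  have ha0 : (0 : ℤ) < a := by exact_mod_cast ha
  have hb0 : (0 : ℤ) < b := by exact_mod_cast hb
  have hc0' : (0 : ℤ) < c := by linarith
  have hcR0 : (0 : ℝ) < c := by exact_mod_cast hc0'
  have hsum : (a : ℝ) + b = c := by exact_mod_cast hcb.symm
  have haR0 : (0 : ℝ) < a := by exact_mod_cast ha0
  have hbR0 : (0 : ℝ) < b := by exact_mod_cast hb0
  have h7 : (a : ℝ) ≤ 1 / 8 * c := hac.trans (mul_le_mul_of_nonneg_right hδ'4 hcR0.le)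
  have habR : (a : ℝ) < b := by linarith
  have hab' : (a : ℤ) < b := by exact_mod_cast habR
  set e : ℤ := (b : ℤ) - a with he
  have he0 : 0 < e := by rw [he]; linarith
  set q : ℤ := (a : ℤ) ^ 2 + (b : ℤ) ^ 2 with hq
  have hq0 : 0 < q := by positivity
  set s : ℤ := (b : ℤ) ^ 4 - 6 * a ^ 2 * b ^ 2 + a ^ 4 with hs
  set t : ℤ := 4 * a * b * (e * c) with ht
  have ht0 : 0 < t := by positivity
  have hst : s ^ 2 + t ^ 2 = q ^ 4 := by rw [hs, ht, he, hcb, hq]; ring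
  have hF : (s + t) ^ 4 - (s - t) ^ 4 = 8 * s * t * q ^ 4 := by rw [← hst]; ring
  have hsR : (c : ℝ) ^ 4 ≤ 16 * s := by
    have h8 : (s : ℝ) = (b : ℝ) ^ 4 - 6 * a ^ 2 * b ^ 2 + a ^ 4 := by rw [hs]; push_cast; ring
    have h9 : 7 / 8 * (c : ℝ) ≤ b := by linarith
    have h10 : (7 / 8 * (c : ℝ)) ^ 2 ≤ (b : ℝ) ^ 2 := pow_le_pow_left₀ (by positivity) h9 2
    have h11 : (a : ℝ) ^ 2 ≤ (1 / 8 * c) ^ 2 := pow_le_pow_left₀ haR0.le h7 2
    have h13 : (43 / 64 * (c : ℝ) ^ 2) ≤ (b : ℝ) ^ 2 - 6 * a ^ 2 := by nlinarith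
    have h14 : (7 / 8 * (c : ℝ)) ^ 2 * (43 / 64 * (c : ℝ) ^ 2) ≤ (b : ℝ) ^ 2 * ((b : ℝ) ^ 2 - 6 * a ^ 2) :=
      mul_le_mul h10 h13 (by positivity) (by positivity)
    have h15 : (0 : ℝ) ≤ (a : ℝ) ^ 4 := by positivity
    have h16 : (0 : ℝ) ≤ (c : ℝ) ^ 4 := by positivity
    rw [h8]
    nlinarith
  have hs0R : (0 : ℝ) < s := by
    have : (0 : ℝ) < (c : ℝ) ^ 4 := by positivity
    linarith
  have hs0 : 0 < s := by exact_mod_cast hs0R
  -- coprimality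
  have habZ : IsCoprime (a : ℤ) (b : ℤ) := Nat.isCoprime_iff_coprime.2 hab
  have h2a : (2 : ℤ) ∣ a := ⟨N * a₁, by rw [ha₁]; push_cast; ring⟩
  have hca : IsCoprime (c : ℤ) (a : ℤ) := by
    rw [hcb]
    have := habZ.symm.add_mul_right_left 1
    rwa [one_mul, add_comm] at this
  have hea : IsCoprime e (a : ℤ) := by
    have := habZ.symm.add_mul_right_left (-1)
    rwa [show (b : ℤ) + -1 * a = e by rw [he]; ring] at this
  have h2e : IsCoprime e 2 := hea.of_isCoprime_of_dvd_right h2a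
  have h2c : IsCoprime (c : ℤ) 2 := hca.of_isCoprime_of_dvd_right h2a
  have has : IsCoprime (a : ℤ) s := by
    have h1 : IsCoprime (a : ℤ) ((b : ℤ) ^ 4) := habZ.pow_right
    have := h1.add_mul_left_right (-6 * a * b ^ 2 + a ^ 3)
    rwa [show (b : ℤ) ^ 4 + a * (-6 * a * b ^ 2 + a ^ 3) = s by rw [hs]; ring] at this
  have h2s : IsCoprime (2 : ℤ) s := has.of_isCoprime_of_dvd_left h2a
  have hbs : IsCoprime (b : ℤ) s := by
    have h1 : IsCoprime (b : ℤ) ((a : ℤ) ^ 4) := habZ.symm.pow_right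
    have := h1.add_mul_left_right (b ^ 3 - 6 * a ^ 2 * b)
    rwa [show (a : ℤ) ^ 4 + b * (b ^ 3 - 6 * a ^ 2 * b) = s by rw [hs]; ring] at this
  have hes : IsCoprime e s := by
    have h1 : IsCoprime e (-(2 ^ 2 * (a : ℤ) ^ 4)) := (h2e.pow_right.mul_right hea.pow_right).neg_right
    have := h1.add_mul_left_right (b ^ 3 + a * b ^ 2 - 5 * a ^ 2 * b - 5 * a ^ 3)
    rwa [show -(2 ^ 2 * (a : ℤ) ^ 4) + e * (b ^ 3 + a * b ^ 2 - 5 * a ^ 2 * b - 5 * a ^ 3) = s by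
      rw [hs, he]; ring] at this
  have hcs : IsCoprime (c : ℤ) s := by
    have h1 : IsCoprime (c : ℤ) (-(2 ^ 2 * (a : ℤ) ^ 4)) :=
      (h2c.pow_right.mul_right hca.pow_right).neg_right
    have := h1.add_mul_left_right (b ^ 3 - a * b ^ 2 - 5 * a ^ 2 * b + 5 * a ^ 3)
    rwa [show -(2 ^ 2 * (a : ℤ) ^ 4) + c * (b ^ 3 - a * b ^ 2 - 5 * a ^ 2 * b + 5 * a ^ 3) = s by
      rw [hs, hcb]; ring] at this
  have hts : IsCoprime t s := by
    have h1 : IsCoprime (2 ^ 2 * (a : ℤ) * b * (e * c)) s :=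
      ((h2s.pow_left.mul_left has).mul_left hbs).mul_left (hes.mul_left hcs)
    rwa [show 2 ^ 2 * (a : ℤ) * b * (e * c) = t by rw [ht]; ring] at h1
  have h2t : (2 : ℤ) ∣ t := ⟨2 * a * b * (e * c), by rw [ht]; ring⟩
  have h2st : IsCoprime (2 : ℤ) (s + t) := by
    obtain ⟨r, hr⟩ := h2t
    rw [hr]
    exact h2s.add_mul_left_right r
  have htst : IsCoprime t (s + t) := by
    have := hts.add_mul_left_right 1
    rwa [mul_one] at this
  have hXY : IsCoprime (s + t) (s - t) := by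
    have h1 : IsCoprime (2 * t) (s + t) := h2st.mul_left htst
    have h2 := h1.symm.neg_right.add_mul_left_right 1
    rwa [show -(2 * t) + (s + t) * 1 = s - t by ring] at h2
  have hne : (s + t) ^ 4 ≠ (s - t) ^ 4 := by
    intro h1
    rw [h1, sub_self] at hF
    have : 0 < 8 * s * t * q ^ 4 := by positivity
    omega
  -- estimates
  have hqc : (q : ℝ) ≤ (c : ℝ) ^ 2 := by
    have h7 : (q : ℝ) = (a : ℝ) ^ 2 + (b : ℝ) ^ 2 := by rw [hq]; push_cast; ring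
    rw [h7, ← hsum]
    nlinarith [mul_pos haR0 hbR0]
  have hqR0 : (0 : ℝ) < q := by exact_mod_cast hq0
  have heR0 : (0 : ℝ) < e := by exact_mod_cast he0
  have hec : (e : ℝ) ≤ c := by
    have : (e : ℝ) = b - a := by rw [he]; push_cast; ring
    rw [this]; linarith
  have hbc : (b : ℝ) ≤ c := by linarith
  have hsc : (s : ℝ) ≤ (c : ℝ) ^ 4 := by
    have h8 : (s : ℝ) ^ 2 ≤ ((c : ℝ) ^ 4) ^ 2 := by
      have h9 : (s : ℝ) ^ 2 + (t : ℝ) ^ 2 = (q : ℝ) ^ 4 := by exact_mod_cast hst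
      calc (s : ℝ) ^ 2 ≤ (q : ℝ) ^ 4 := by nlinarith [sq_nonneg (t : ℝ)]
        _ ≤ ((c : ℝ) ^ 2) ^ 4 := pow_le_pow_left₀ hqR0.le hqc 4
        _ = _ := by ring
    exact (abs_le_of_sq_le_sq' h8 (by positivity)).2
  have htR0 : (0 : ℝ) < t := by exact_mod_cast ht0
  have htc : (t : ℝ) ≤ 4 * δ' * (c : ℝ) ^ 4 := by
    have h8 : (t : ℝ) = 4 * a * b * (e * c) := by rw [ht]; push_cast; ring
    rw [h8]
    calc 4 * (a : ℝ) * b * (e * c) ≤ 4 * (δ' * c) * c * (c * c) := by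
          apply mul_le_mul _ (mul_le_mul_of_nonneg_right hec hcR0.le) (by positivity) (by positivity)
          exact mul_le_mul (mul_le_mul_of_nonneg_left hac (by norm_num)) hbc hbR0.le (by positivity)
      _ = _ := by ring
  have hM : (s : ℝ) ^ 4 ≤ max (|((s + t : ℤ) : ℝ)| ^ 4) (|((s - t : ℤ) : ℝ)| ^ 4) := by
    refine le_trans ?_ (le_max_left _ _)
    push_cast
    rw [abs_of_pos (by linarith)]
    exact pow_le_pow_left₀ hs0R.le (by linarith) 4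
  have hcs' : (c : ℝ) ^ 16 ≤ 65536 * (s : ℝ) ^ 4 := by
    calc (c : ℝ) ^ 16 = ((c : ℝ) ^ 4) ^ 4 := by ring
      _ ≤ (16 * (s : ℝ)) ^ 4 := pow_le_pow_left₀ (by positivity) hsR 4
      _ = _ := by ring
  refine ⟨max (|((s + t : ℤ) : ℝ)| ^ 4) (|((s - t : ℤ) : ℝ)| ^ 4), R (8 * s * t * q ^ 4).natAbs,
    ?_, ?_, ?_⟩
  · exact hcs'.trans (mul_le_mul_of_nonneg_left hM (by norm_num))
  · have h6 := hκ (s + t) (s - t) hXY hne (by
      rw [hF]
      exact ⟨64 * a₁ * b * s * (e * c) * q ^ 4, by rw [ht, ha₁]; push_cast; ring⟩) (by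
      have h8 : ((s + t : ℤ) : ℝ) ^ 4 - ((s - t : ℤ) : ℝ) ^ 4 = 8 * s * t * (q : ℝ) ^ 4 := by
        exact_mod_cast hF
      rw [h8, abs_of_pos (by positivity)]
      have h9 : (q : ℝ) ^ 4 ≤ ((c : ℝ) ^ 2) ^ 4 := pow_le_pow_left₀ hqR0.le hqc 4
      calc 8 * (s : ℝ) * t * (q : ℝ) ^ 4 ≤ 8 * (c : ℝ) ^ 4 * (4 * δ' * (c : ℝ) ^ 4) * ((c : ℝ) ^ 2) ^ 4 := by
            apply mul_le_mul _ h9 (by positivity) (by positivity)
            exact mul_le_mul (mul_le_mul_of_nonneg_left hsc (by norm_num)) htc htR0.le (by positivity)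
        _ = 32 * δ' * (c : ℝ) ^ 16 := by ring
        _ ≤ 32 * (δ / (32 * 65536)) * (65536 * (s : ℝ) ^ 4) :=
            mul_le_mul (mul_le_mul_of_nonneg_left hδ'δ (by norm_num)) hcs' (by positivity) (by positivity)
        _ = δ * (s : ℝ) ^ 4 := by ring
        _ ≤ _ := mul_le_mul_of_nonneg_left hM hδ.le)
    rw [hF] at h6
    exact h6
  · have habc0 : a * b * c ≠ 0 := by
      have : 0 < c := by omega
      positivity
    have hn0 : (s * e * q).natAbs ≠ 0 := Int.natAbs_ne_zero.2 (by positivity)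
    have h6 : R (8 * s * t * q ^ 4).natAbs ≤ R (a * b * c) * (2 * (s * e * q).natAbs) := by
      apply R_bound habc0 (mul_ne_zero (by omega) hn0)
      intro ℓ hℓ hd
      have e1 : (8 * s * t * q ^ 4) = 2 ^ 5 * (a * b * c) * (s * (e * q ^ 4)) := by rw [ht]; ring
      have e2 : (8 * s * t * q ^ 4).natAbs = 2 ^ 5 * (a * b * c) * (s.natAbs * (e.natAbs * q.natAbs ^ 4)) := by
        rw [e1, show (2 ^ 5 * ((a : ℤ) * b * c)) = ((2 ^ 5 * (a * b * c) : ℕ) : ℤ) by push_cast; ring,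
          Int.natAbs_mul, Int.natAbs_natCast, Int.natAbs_mul s, Int.natAbs_mul e, Int.natAbs_pow q]
      rw [e2] at hd
      rw [Int.natAbs_mul, Int.natAbs_mul]
      rcases (Nat.Prime.dvd_mul hℓ).1 hd with h | h
      · rcases (Nat.Prime.dvd_mul hℓ).1 h with h | h
        · exact ((hℓ.dvd_of_dvd_pow h).mul_right _).mul_left _
        · exact h.mul_right _
      · rcases (Nat.Prime.dvd_mul hℓ).1 h with h | h
        · exact (((h.mul_right _).mul_right _).mul_left _).mul_left _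
        · rcases (Nat.Prime.dvd_mul hℓ).1 h with h | h
          · exact (((h.mul_left _).mul_right _).mul_left _).mul_left _
          · exact (((hℓ.dvd_of_dvd_pow h).mul_left _).mul_left _).mul_left _
    have hR : (1 : ℝ) ≤ R (a * b * c) := by exact_mod_cast R_pos _
    have e6 : ((s * e * q).natAbs : ℝ) = s * e * q := by
      rw [Nat.cast_natAbs, abs_of_pos (by positivity)]; push_cast; ring
    calc (R (8 * s * t * q ^ 4).natAbs : ℝ) ≤ R (a * b * c) * (2 * (s * e * q)) := by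
          rw [← e6]; exact_mod_cast h6
      _ ≤ R (a * b * c) * (2 * ((c : ℝ) ^ 4 * c * (c : ℝ) ^ 2)) := by
          apply mul_le_mul_of_nonneg_left _ (by linarith)
          apply mul_le_mul_of_nonneg_left _ (by norm_num)
          exact mul_le_mul (mul_le_mul hsc hec heR0.le (by positivity)) hqc hqR0.le (by positivity)
      _ = 2 * (R (a * b * c) * (c : ℝ) ^ 7) := by ring
      _ ≤ 65536 * (R (a * b * c) * (c : ℝ) ^ 7) :=
          mul_le_mul_of_nonneg_right (by norm_num) (by positivity)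
      _ = 65536 * R (a * b * c) * (c : ℝ) ^ 7 := by ring

end Pool.Agent.N757.OC
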